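import Pool.Agent.Work.MP_7b0bad_ag.LF.Stmts

set_option autoImplicit false

/-!
# Wielandt's join theorem for subnormal subgroups of a finite group
-/

namespace MP7b0bad
namespace LF

variable {G : Type} [Group G]

/-! ## basic facts on `SN` -/

theorem SN.le {H L : Subgroup G} (h : SN H L) : H ≤ L := by
  induction h with
  | refl H => exact le_refl H
  | step h1 _ _ ih => exact h1.trans ih

theorem SN.trans {H K L : Subgroup G} (h1 : SN H K) (h2 : SN K L) : SN H L := by
  induction h1 with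
  | refl H => exact h2
  | step a b _ ih => exact SN.step a b (ih h2)

theorem SN.inf {H L : Subgroup G} (h : SN H L) (K : Subgroup G) : SN (H ⊓ K) (L ⊓ K) := by
  induction h with
  | refl H => exact SN.refl _
  | step a b _ ih =>
    refine SN.step (inf_le_inf_right K a) ?_ ih
    intro g hg x hx
    exact ⟨b g hg.1 x hx.1, K.mul_mem (K.mul_mem hg.2 hx.2) (K.inv_mem hg.2)⟩

/-- a subnormal subgroup is subnormal in every intermediate subgroup -/
theorem SN.restrict {H K L : Subgroup G} (h : SN H L) (h1 : H ≤ K) (h2 : K ≤ L) : SN H K := by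
  have := h.inf K
  rwa [inf_eq_left.2 h1, inf_eq_right.2 h2] at this

theorem SN.map {G' : Type} [Group G'] (f : G →* G') {H L : Subgroup G} (h : SN H L) :
    SN (H.map f) (L.map f) := by
  induction h with
  | refl H => exact SN.refl _
  | step a b _ ih =>
    refine SN.step (Subgroup.map_mono a) ?_ ih
    rintro _ ⟨g, hg, rfl⟩ _ ⟨x, hx, rfl⟩
    exact ⟨g * x * g⁻¹, b g hg x hx, by simp⟩

theorem SN.comap {G' : Type} [Group G'] (f : G' →* G) {H L : Subgroup G} (h : SN H L) :
    SN (H.comap f) (L.comap f) := by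
  induction h with
  | refl H => exact SN.refl _
  | step a b _ ih =>
    refine SN.step (Subgroup.comap_mono a) ?_ ih
    intro g hg x hx
    rw [Subgroup.mem_comap] at hg hx ⊢
    simpa using b _ hg _ hx

/-- the conjugate `x H x⁻¹` -/
abbrev cjJ (x : G) (H : Subgroup G) : Subgroup G := H.map (MulAut.conj x).toMonoidHom

theorem mem_cjJ {x y : G} {H : Subgroup G} : y ∈ cjJ x H ↔ ∃ h ∈ H, x * h * x⁻¹ = y := by
  simp [cjJ, Subgroup.mem_map]

theorem cjJ_self {x : G} {L : Subgroup G} (hx : x ∈ L) : cjJ x L = L := by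
  apply le_antisymm
  · rintro _ ⟨h, hh, rfl⟩
    exact L.mul_mem (L.mul_mem hx hh) (L.inv_mem hx)
  · intro y hy
    refine mem_cjJ.2 ⟨x⁻¹ * y * x, L.mul_mem (L.mul_mem (L.inv_mem hx) hy) hx, ?_⟩
    group

/-- conjugation of subnormal subgroups -/
theorem SN.conj {H L : Subgroup G} (h : SN H L) (x : G) : SN (cjJ x H) (cjJ x L) := h.map _

theorem SN.conj_mem {H L : Subgroup G} (h : SN H L) {x : G} (hx : x ∈ L) : SN (cjJ x H) L := by
  have := h.conj x
  rwa [cjJ_self hx] at this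

/-! ## normalising -/

/-- `K` normalises `H` -/
def Nz (K H : Subgroup G) : Prop := ∀ g ∈ K, ∀ h ∈ H, g * h * g⁻¹ ∈ H

theorem Nz.mono {K K' H : Subgroup G} (h : Nz K H) (hK : K' ≤ K) : Nz K' H :=
  fun g hg x hx => h g (hK hg) x hx

theorem nz_of_le {K H : Subgroup G} (h : K ≤ H) : Nz K H := fun _ hg _ hx =>
  H.mul_mem (H.mul_mem (h hg) hx) (H.inv_mem (h hg))

theorem nz_iff_cj {K H : Subgroup G} : Nz K H ↔ ∀ g ∈ K, cjJ g H ≤ H := by
  constructor
  · rintro h g hg _ ⟨x, hx, rfl⟩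
    exact h g hg x hx
  · intro h g hg x hx
    exact h g hg (mem_cjJ.2 ⟨x, hx, rfl⟩)

theorem Nz.sup_right {K N B : Subgroup G} (h1 : Nz K N) (h2 : Nz K B) : Nz K (N ⊔ B) := by
  rw [nz_iff_cj] at h1 h2 ⊢
  intro g hg
  have : cjJ g (N ⊔ B) = cjJ g N ⊔ cjJ g B := Subgroup.map_sup _ _ _
  rw [this]
  exact sup_le_sup (h1 g hg) (h2 g hg)

theorem Nz.sup_left {K K' N : Subgroup G} (h1 : Nz K N) (h2 : Nz K' N) : Nz (K ⊔ K') N := by
  have key : ∀ {M : Subgroup G}, Nz M N → M ≤ Subgroup.normalizer (N : Set G) := by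
    intro M hM g hg
    rw [Subgroup.mem_normalizer_iff]
    intro x
    refine ⟨hM g hg x, fun hx => ?_⟩
    have := hM g⁻¹ (M.inv_mem hg) _ hx
    simpa [mul_assoc] using this
  have h3 : K ⊔ K' ≤ Subgroup.normalizer (N : Set G) := sup_le (key h1) (key h2)
  intro g hg x hx
  exact (Subgroup.mem_normalizer_iff.1 (h3 hg) x).1 hx

/-- the normal closure of `A` in `L` -/
def nc (A L : Subgroup G) : Subgroup G :=
  Subgroup.closure {y | ∃ g ∈ L, ∃ a ∈ A, y = g * a * g⁻¹}

theorem le_nc (A L : Subgroup G) : A ≤ nc A L := fun a ha =>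
  Subgroup.subset_closure ⟨1, L.one_mem, a, ha, by simp⟩

theorem nc_le {A L N : Subgroup G} (h : A ≤ N) (h2 : Nz L N) : nc A L ≤ N := by
  rw [nc, Subgroup.closure_le]
  rintro _ ⟨g, hg, a, ha, rfl⟩
  exact h2 g hg a (h ha)

theorem nc_le_self {A L : Subgroup G} (h : A ≤ L) : nc A L ≤ L := nc_le h (nz_of_le le_rfl)

/-- if `B` normalises `A` and `L` then it normalises the normal closure of `A` in `L` -/
theorem nz_nc {A B L : Subgroup G} (h1 : Nz B A) (h2 : Nz B L) : Nz B (nc A L) := by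
  rw [nz_iff_cj]
  intro b hb
  rw [cjJ, nc, MonoidHom.map_closure, Subgroup.closure_le]
  rintro _ ⟨_, ⟨g, hg, a, ha, rfl⟩, rfl⟩
  apply Subgroup.subset_closure
  refine ⟨b * g * b⁻¹, h2 b hb g hg, b * a * b⁻¹, h1 b hb a ha, ?_⟩
  simp only [MulEquiv.coe_toMonoidHom, MulAut.conj_apply]
  group

theorem nz_nc_self (A L : Subgroup G) : Nz L (nc A L) := by
  rw [nz_iff_cj]
  intro b hb
  rw [cjJ, nc, MonoidHom.map_closure, Subgroup.closure_le]
  rintro _ ⟨_, ⟨g, hg, a, ha, rfl⟩, rfl⟩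
  apply Subgroup.subset_closure
  refine ⟨b * g, L.mul_mem hb hg, a, ha, ?_⟩
  simp only [MulEquiv.coe_toMonoidHom, MulAut.conj_apply]
  group

theorem SN.eq_or_normal {A L : Subgroup G} (h : SN A L) :
    A = L ∨ ∃ N : Subgroup G, A ≤ N ∧ N ≤ L ∧ N ≠ L ∧ Nz L N := by
  induction h with
  | refl H => exact Or.inl rfl
  | @step H K L a b c ih =>
    rcases ih with rfl | ⟨N, h1, h2, h3, h4⟩
    · by_cases hH : H = K
      · exact Or.inl hH
      · exact Or.inr ⟨H, le_rfl, a, hH, b⟩
    · exact Or.inr ⟨N, a.trans h1, h2, h3, h4⟩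

theorem SN.nc_lt {A L : Subgroup G} (h : SN A L) (hne : A ≠ L) : nc A L < L := by
  refine lt_of_le_of_ne (nc_le_self h.le) fun he => ?_
  rcases h.eq_or_normal with h1 | ⟨N, h1, h2, h3, h4⟩
  · exact hne h1
  · exact h3 (le_antisymm h2 (he ▸ nc_le h1 h4))

theorem sn_of_nz {N L : Subgroup G} (h : N ≤ L) (h2 : Nz L N) : SN N L := SN.step h h2 (SN.refl L)

theorem sn_bot (L : Subgroup G) : SN ⊥ L := sn_of_nz bot_le (by
  intro g _ x hx
  rw [Subgroup.mem_bot] at hx
  simp [hx])

/-- the product of a normal and a subnormal subgroup -/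
theorem SN.sup_normal {B M : Subgroup G} (h : SN B M) :
    ∀ N : Subgroup G, N ≤ M → Nz M N → SN (N ⊔ B) M := by
  induction h with
  | refl H =>
    intro N hN _
    rw [sup_eq_right.2 hN]
    exact SN.refl H
  | @step H K L a b c ih =>
    intro N hN hz
    refine SN.step (sup_le_sup_left a N) ?_ (ih N hN hz)
    exact Nz.sup_left (nz_of_le le_sup_left) (Nz.sup_right (hz.mono c.le) b)

variable [Finite G]

/-- two subnormal subgroups, one normalising the other -/
theorem sn_sup_of_nz (N : Subgroup G) : ∀ A B : Subgroup G, SN A N → Nz B N → Nz B A →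
    SN B (N ⊔ B) → SN (A ⊔ B) (N ⊔ B) := by
  induction N using WellFoundedLT.induction with
  | ind N ih =>
    intro A B hA hBN hBA hB
    by_cases hne : A = N
    · rw [hne]; exact SN.refl _
    have hlt := hA.nc_lt hne
    have h1 : Nz B (nc A N) := nz_nc hBA hBN
    have h2 : SN A (nc A N) := hA.restrict (le_nc A N) hlt.le
    have h3 : SN B (nc A N ⊔ B) := hB.restrict le_sup_right (sup_le_sup_right hlt.le B)
    have h4 := ih _ hlt A B h2 h1 hBA h3
    refine h4.trans ?_
    exact hB.sup_normal _ (hlt.le.trans le_sup_left) (Nz.sup_left (nz_nc_self A N) h1)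

/-- Wielandt's join theorem -/
theorem sn_join (L : Subgroup G) : ∀ A B : Subgroup G, SN A L → SN B L → SN (A ⊔ B) L := by
  induction L using WellFoundedLT.induction with
  | ind L ih =>
    intro A B hA hB
    by_cases hne : A = L
    · rw [hne, sup_eq_left.2 hB.le]; exact SN.refl _
    have hlt := hA.nc_lt hne
    have hfin : ∀ s : Set (Subgroup G), (∀ H ∈ s, SN H (nc A L)) → SN (sSup s) (nc A L) := by
      intro s
      refine Set.Finite.induction_on (motive := fun s _ => (∀ H ∈ s, SN H (nc A L)) →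
        SN (sSup s) (nc A L)) s (Set.toFinite s) ?_ ?_
      · intro _
        rw [sSup_empty]
        exact sn_bot _
      · intro a s _ _ hs h
        rw [sSup_insert]
        exact ih _ hlt _ _ (h a (Set.mem_insert _ _)) (hs fun H hH => h H (Set.mem_insert_of_mem _ hH))
    have hJL : A ⊔ B ≤ L := sup_le hA.le hB.le
    have heq : nc A (A ⊔ B) = sSup {H | ∃ x ∈ A ⊔ B, H = cjJ x A} := by
      apply le_antisymm
      · rw [nc, Subgroup.closure_le]
        rintro _ ⟨g, hg, a, ha, rfl⟩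
        have h0 : cjJ g A ≤ sSup {H | ∃ x ∈ A ⊔ B, H = cjJ x A} := le_sSup ⟨g, hg, rfl⟩
        exact h0 (mem_cjJ.2 ⟨a, ha, rfl⟩)
      · apply sSup_le
        rintro _ ⟨x, hx, rfl⟩
        rintro _ ⟨a, ha, rfl⟩
        exact Subgroup.subset_closure ⟨x, hx, a, ha, rfl⟩
    have h1 : SN (nc A (A ⊔ B)) (nc A L) := by
      rw [heq]
      apply hfin
      rintro _ ⟨x, hx, rfl⟩
      refine (hA.conj_mem (hJL hx)).restrict ?_ hlt.le
      rintro _ ⟨a, ha, rfl⟩
      exact Subgroup.subset_closure ⟨x, hJL hx, a, ha, rfl⟩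
    have h2 : SN (nc A (A ⊔ B)) L := h1.trans (sn_of_nz hlt.le (nz_nc_self A L))
    have h3 : nc A (A ⊔ B) ⊔ B = A ⊔ B :=
      le_antisymm (sup_le (nc_le_self le_sup_left) le_sup_right)
        (sup_le_sup_right (le_nc _ _) B)
    have h4 : L ⊔ B = L := sup_eq_left.2 hB.le
    have h5 := sn_sup_of_nz L (nc A (A ⊔ B)) B h2 (nz_of_le hB.le)
      ((nz_nc_self A (A ⊔ B)).mono le_sup_right) (by rw [h4]; exact hB)
    rwa [h3, h4] at h5

/-- the join of any set of subnormal subgroups -/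
theorem sn_sSup (L : Subgroup G) (s : Set (Subgroup G)) (h : ∀ H ∈ s, SN H L) :
    SN (sSup s) L := by
  revert h
  refine Set.Finite.induction_on (motive := fun s _ => (∀ H ∈ s, SN H L) →
    SN (sSup s) L) s (Set.toFinite s) ?_ ?_
  · intro _
    rw [sSup_empty]
    exact sn_bot _
  · intro a s _ _ hs h
    rw [sSup_insert]
    exact sn_join L _ _ (h a (Set.mem_insert _ _)) (hs fun H hH => h H (Set.mem_insert_of_mem _ hH))

omit [Finite G] in
theorem prf_HJoin : HJoin := fun _ _ _ A B L hA hB => sn_join L A B hA hB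

end LF
end MP7b0bad
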