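import Pool.Agent.Work.MP_7b0bad_ag.LF.Stmts

set_option autoImplicit false

/-!
# Local fusion: reduction to the abstract configuration
-/

namespace MP7b0bad
namespace LF
namespace Red

theorem sn_trans {G : Type} [Group G] {A B C : Subgroup G} (h : SN A B) (h' : SN B C) :
    SN A C := by
  induction h with
  | refl => exact h'
  | step h1 h2 _ ih => exact SN.step h1 h2 (ih h')

theorem sn_map {G H : Type} [Group G] [Group H] (φ : G →* H) {A B : Subgroup G} (h : SN A B) :
    SN (A.map φ) (B.map φ) := by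
  induction h with
  | refl => exact SN.refl _
  | step h1 h2 _ ih =>
    refine SN.step (Subgroup.map_mono h1) ?_ ih
    rintro _ ⟨g, hg, rfl⟩ _ ⟨k, hk, rfl⟩
    exact ⟨g * k * g⁻¹, h2 g hg k hk, by simp⟩

theorem sn_botR {G : Type} [Group G] (L : Subgroup G) : SN ⊥ L := by
  refine SN.step bot_le ?_ (SN.refl L)
  intro g _ h hh
  rw [Subgroup.mem_bot] at hh ⊢
  subst hh
  simp

theorem sn_normal {G : Type} [Group G] (L : Subgroup G) (hL : L.Normal) : SN L ⊤ := by
  refine SN.step le_top ?_ (SN.refl ⊤)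
  intro g _ h hh
  exact hL.conj_mem h hh g

theorem card_lt {G : Type} [Group G] [Finite G] {K : Subgroup G} (hK : K ≠ ⊤) :
    Nat.card K < Nat.card G :=
  lt_of_le_of_ne (Subgroup.card_le_card_group K) (fun h => hK (Subgroup.eq_top_of_card_eq K h))

/-- the statement of local fusion for groups of cardinality `< n` -/
def Upto (n : ℕ) : Prop := ∀ (G : Type) [Group G] [Finite G], Nat.card G < n →
  ∀ (u : G) (D : Set G), u ∈ D →
  (∀ v ∈ D, ∀ x ∈ Subgroup.closure {v, x * v * x⁻¹}, x * v * x⁻¹ ∈ D) →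
  ∃ N : Subgroup G, SN N ⊤ ∧ u ∈ N ∧ N ≤ Subgroup.closure D

/-- the induction hypothesis inside a subgroup -/
theorem upto_sub {G : Type} [Group G] [Finite G] {n : ℕ} (hU : Upto n) (K : Subgroup G)
    (hK : Nat.card K < n) (u : G) (D : Set G) (hu : u ∈ D) (huK : u ∈ K)
    (hD : ∀ v ∈ D, v ∈ K → ∀ x ∈ K, x ∈ Subgroup.closure {v, x * v * x⁻¹} → x * v * x⁻¹ ∈ D) :
    ∃ N : Subgroup G, SN N K ∧ u ∈ N ∧ N ≤ Subgroup.closure (D ∩ K) := by
  obtain ⟨N, hN, huN, hND⟩ := hU K hK ⟨u, huK⟩ {v : K | (v : G) ∈ D} hu (by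
    intro v hv x hx
    refine hD v hv v.2 x x.2 ?_
    have h1 : (x : G) ∈ (Subgroup.closure {v, x * v * x⁻¹}).map K.subtype := ⟨x, hx, rfl⟩
    rw [MonoidHom.map_closure] at h1
    refine Subgroup.closure_mono ?_ h1
    rintro _ ⟨y, hy, rfl⟩
    rcases hy with hy | hy
    · left
      rw [hy]; rfl
    · right
      rw [Set.mem_singleton_iff] at hy ⊢
      rw [hy]; rfl)
  refine ⟨N.map K.subtype, ?_, ⟨⟨u, huK⟩, huN, rfl⟩, ?_⟩
  · have := sn_map K.subtype hN
    rwa [← MonoidHom.range_eq_map, Subgroup.range_subtype] at this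
  · refine (Subgroup.map_mono hND).trans ?_
    rw [MonoidHom.map_closure]
    refine Subgroup.closure_mono ?_
    rintro _ ⟨y, hy, rfl⟩
    exact ⟨hy, y.2⟩

/-- one step of the fusion graph -/
def R {G : Type} [Group G] (v w : G) : Prop := ∃ x ∈ Subgroup.closure {v, w}, w = x * v * x⁻¹

theorem R_symm {G : Type} [Group G] {v w : G} (h : R v w) : R w v := by
  obtain ⟨x, hx, rfl⟩ := h
  refine ⟨x⁻¹, ?_, by group⟩
  rw [Set.pair_comm]
  exact inv_mem hx

theorem R_conj {G : Type} [Group G] (g : G) {v w : G} (h : R v w) :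
    R (g * v * g⁻¹) (g * w * g⁻¹) := by
  obtain ⟨x, hx, rfl⟩ := h
  refine ⟨g * x * g⁻¹, ?_, by group⟩
  have h1 : (MulAut.conj g).toMonoidHom x ∈
      (Subgroup.closure {v, x * v * x⁻¹}).map (MulAut.conj g).toMonoidHom := ⟨x, hx, rfl⟩
  rw [MonoidHom.map_closure, Set.image_pair] at h1
  exact h1

/-- the connected components of the fusion graph -/
def E {G : Type} [Group G] (v w : G) : Prop := Relation.ReflTransGen (R (G := G)) v w

theorem E_refl {G : Type} [Group G] (v : G) : E v v := Relation.ReflTransGen.refl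

theorem E_trans {G : Type} [Group G] {v w z : G} (h : E v w) (h' : E w z) : E v z :=
  Relation.ReflTransGen.trans h h'

theorem E_symm {G : Type} [Group G] {v w : G} (h : E v w) : E w v := by
  unfold E at h
  induction h with
  | refl => exact E_refl v
  | tail _ h2 ih => exact E_trans (Relation.ReflTransGen.single (R_symm h2)) ih

theorem E_conj {G : Type} [Group G] (g : G) {v w : G} (h : E v w) :
    E (g * v * g⁻¹) (g * w * g⁻¹) := by
  unfold E at h
  induction h with
  | refl => exact E_refl _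
  | tail _ h2 ih => exact E_trans ih (Relation.ReflTransGen.single (R_conj g h2))

/-- the stabiliser of the component of `u` -/
def Mu {G : Type} [Group G] (u : G) : Subgroup G where
  carrier := {g | E u (g * u * g⁻¹)}
  mul_mem' := by
    intro a b ha hb
    have h1 := E_conj a hb
    have h2 := E_trans ha h1
    have h3 : a * (b * u * b⁻¹) * a⁻¹ = (a * b) * u * (a * b)⁻¹ := by group
    rw [h3] at h2
    exact h2
  one_mem' := by
    have h3 : (1 : G) * u * 1⁻¹ = u := by group
    show E u (1 * u * 1⁻¹)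
    rw [h3]
    exact E_refl u
  inv_mem' := by
    intro a ha
    have h1 := E_conj a⁻¹ ha
    have h3 : a⁻¹ * (a * u * a⁻¹) * a⁻¹⁻¹ = u := by group
    rw [h3] at h1
    exact E_symm h1

theorem mem_Mu {G : Type} [Group G] {u g : G} : g ∈ Mu u ↔ E u (g * u * g⁻¹) := Iff.rfl

theorem E_mem {G : Type} [Group G] {u w : G} (h : E u w) : w ∈ Mu u := by
  rw [mem_Mu]
  have h1 := E_conj w h
  have h3 : w * w * w⁻¹ = w := by group
  rw [h3] at h1
  exact E_trans h (E_symm h1)

/-- the maximal subnormal subgroup argument -/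
theorem sn_gen (hJ : HJoin) {G : Type} [Group G] [Finite G] (L : Subgroup G) (S : Set G)
    (h : ∀ v ∈ S, ∃ N : Subgroup G, SN N L ∧ v ∈ N ∧ N ≤ Subgroup.closure S) :
    SN (Subgroup.closure S) L := by
  classical
  have hfin : Set.Finite {N : Subgroup G | SN N L ∧ N ≤ Subgroup.closure S} := Set.toFinite _
  obtain ⟨N₀, hN₀⟩ := hfin.exists_maximal ⟨⊥, sn_botR L, bot_le⟩
  have hle : Subgroup.closure S ≤ N₀ := by
    rw [Subgroup.closure_le]
    intro v hv
    obtain ⟨N, hN, hvN, hNS⟩ := h v hv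
    have h1 : N₀ ⊔ N ∈ {N : Subgroup G | SN N L ∧ N ≤ Subgroup.closure S} :=
      ⟨hJ G N₀ N L hN₀.prop.1 hN, sup_le hN₀.prop.2 hNS⟩
    have h2 := hN₀.le_of_ge h1 le_sup_left
    exact h2 (le_sup_right (a := N₀) hvN)
  have heq : Subgroup.closure S = N₀ := le_antisymm hle hN₀.prop.2
  rw [heq]
  exact hN₀.prop.1

/-- the map `g u g⁻¹ ↦ g M` -/
noncomputable def ff {G : Type} [Group G] (u : G) (M : Subgroup G) (v : G) : G ⧸ M := by
  classical
  exact if h : ∃ g : G, g * u * g⁻¹ = v then (h.choose : G ⧸ M) else ((1 : G) : G ⧸ M)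

theorem ff_eq {G : Type} [Group G] {u : G} {M : Subgroup G} (hM : Mu u ≤ M) (g : G) :
    ff u M (g * u * g⁻¹) = (g : G ⧸ M) := by
  have h : ∃ k : G, k * u * k⁻¹ = g * u * g⁻¹ := ⟨g, rfl⟩
  have h1 : ff u M (g * u * g⁻¹) = (h.choose : G ⧸ M) := by
    unfold ff
    rw [dif_pos h]
  rw [h1, QuotientGroup.eq]
  refine hM ?_
  have h2 := h.choose_spec
  rw [mem_Mu]
  have h3 : (h.choose)⁻¹ * g * u * ((h.choose)⁻¹ * g)⁻¹ = u := by
    calc (h.choose)⁻¹ * g * u * ((h.choose)⁻¹ * g)⁻¹
        = (h.choose)⁻¹ * (g * u * g⁻¹) * h.choose := by group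
      _ = (h.choose)⁻¹ * (h.choose * u * (h.choose)⁻¹) * h.choose := by rw [h2]
      _ = u := by group
  rw [h3]
  exact E_refl u

theorem stab_mk {G : Type} [Group G] {M : Subgroup G} (g x : G) :
    x ∈ MulAction.stabilizer G (g : G ⧸ M) ↔ g⁻¹ * x * g ∈ M := by
  rw [MulAction.mem_stabilizer_iff, MulAction.Quotient.smul_coe, eq_comm, QuotientGroup.eq,
    smul_eq_mul, mul_assoc]

theorem stab_eq {G : Type} [Group G] {M : Subgroup G} (g : G) :
    MulAction.stabilizer G (g : G ⧸ M) = (MulAut.conj g).mapSubgroup M := by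
  ext x
  rw [stab_mk, MulEquiv.coe_mapSubgroup]
  constructor
  · intro h
    exact ⟨_, h, by simp [MulAut.conj_apply]; group⟩
  · rintro ⟨y, hy, rfl⟩
    have h3 : g⁻¹ * ((MulAut.conj g).toMonoidHom y) * g = y := by
      show g⁻¹ * (g * y * g⁻¹) * g = y
      group
    rw [h3]
    exact hy

theorem stab_coatom {G : Type} [Group G] {M : Subgroup G} (hM : IsCoatom M) (i : G ⧸ M) :
    IsCoatom (MulAction.stabilizer G i) := by
  induction i using QuotientGroup.induction_on with
  | H g =>
    rw [stab_eq, OrderIso.isCoatom_iff]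
    exact hM

theorem stab_inj {G : Type} [Group G] {M : Subgroup G} (hM : IsCoatom M) (hMn : ¬ M.Normal)
    (i j : G ⧸ M) (h : MulAction.stabilizer G i = MulAction.stabilizer G j) : i = j := by
  induction i using QuotientGroup.induction_on with
  | H g =>
    induction j using QuotientGroup.induction_on with
    | H k =>
      have hN : Subgroup.normalizer (M : Set G) = M := by
        by_contra hne
        have h1 : M < Subgroup.normalizer (M : Set G) :=
          lt_of_le_of_ne Subgroup.le_normalizer (Ne.symm hne)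
        exact hMn (Subgroup.normalizer_eq_top_iff.mp (hM.2 _ h1))
      rw [QuotientGroup.eq, ← hN, Subgroup.mem_normalizer_iff]
      intro m
      have h1 : ∀ x : G, g⁻¹ * x * g ∈ M ↔ k⁻¹ * x * k ∈ M := by
        intro x
        rw [← stab_mk, ← stab_mk, h]
      have h2 := h1 (k * m * k⁻¹)
      have h3 : k⁻¹ * (k * m * k⁻¹) * k = m := by group
      have h4 : g⁻¹ * (k * m * k⁻¹) * g = g⁻¹ * k * m * (g⁻¹ * k)⁻¹ := by group
      rw [h3, h4] at h2
      exact h2.symm

theorem main (hJ : HJoin) (hA : HAbs) (n : ℕ) : Upto n := by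
  induction n with
  | zero =>
    intro G _ _ h
    exact absurd h (by omega)
  | succ n ih =>
    intro G _ _ hn u D hu hD
    have ihK : ∀ K : Subgroup G, K ≠ ⊤ → Nat.card K < n := fun K hK => by
      have := card_lt hK
      omega
    set X : Set G := {v | ∃ g : G, g * u * g⁻¹ = v} with hX
    have huX : u ∈ X := ⟨1, by group⟩
    have hconj : ∀ g v : G, v ∈ X → g * v * g⁻¹ ∈ X := by
      rintro g _ ⟨k, rfl⟩
      exact ⟨g * k, by group⟩
    have hnrm : ∀ N : Subgroup G, N.Normal → ∀ v ∈ X, v ∈ N → X ⊆ N := by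
      rintro N hN _ ⟨k, rfl⟩ hv _ ⟨g, rfl⟩
      have h1 := hN.conj_mem _ hv (g * k⁻¹)
      have h2 : g * k⁻¹ * (k * u * k⁻¹) * (g * k⁻¹)⁻¹ = g * u * g⁻¹ := by group
      rw [h2] at h1
      exact h1
    by_cases htop : Subgroup.closure X = ⊤
    swap
    · -- the normal closure is proper
      have hLn : (Subgroup.closure X).Normal := by
        refine ⟨fun k hk g => ?_⟩
        have h1 : g * k * g⁻¹ ∈ (Subgroup.closure X).map (MulAut.conj g).toMonoidHom :=
          ⟨k, hk, rfl⟩
        rw [MonoidHom.map_closure] at h1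
        refine Subgroup.closure_mono ?_ h1
        rintro _ ⟨v, hv, rfl⟩
        exact hconj g v hv
      obtain ⟨N, hN, huN, hND⟩ := upto_sub ih (Subgroup.closure X) (ihK _ htop) u D hu
        (Subgroup.subset_closure huX) (fun v hv _ x _ hx => hD v hv x hx)
      exact ⟨N, sn_trans hN (sn_normal _ hLn), huN,
        hND.trans (Subgroup.closure_mono Set.inter_subset_left)⟩
    have hED : ∀ w, E u w → w ∈ D := by
      intro w hw
      unfold E at hw
      induction hw with
      | refl => exact hu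
      | tail _ h2 ih2 =>
        obtain ⟨x, hx, rfl⟩ := h2
        exact hD _ ih2 x hx
    by_cases hMt : Mu u = ⊤
    · refine ⟨⊤, SN.refl ⊤, Subgroup.mem_top u, ?_⟩
      rw [← htop]
      refine Subgroup.closure_mono ?_
      rintro _ ⟨g, rfl⟩
      refine hED _ ?_
      rw [← mem_Mu, hMt]
      exact Subgroup.mem_top g
    exfalso
    obtain ⟨M, hM, hMM⟩ := (eq_top_or_exists_le_coatom (Mu u)).resolve_left hMt
    have huM : u ∈ M := hMM (E_mem (E_refl u))
    have hMn : ¬ M.Normal := by
      intro hN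
      have h1 := hnrm M hN u huX huM
      rw [← Subgroup.closure_le, htop] at h1
      exact hM.1 (top_le_iff.mp h1)
    -- equivariance
    have hf : ∀ g v : G, v ∈ X → ff u M (g * v * g⁻¹) = g • ff u M v := by
      rintro g _ ⟨k, rfl⟩
      have h1 : g * (k * u * k⁻¹) * g⁻¹ = (g * k) * u * (g * k)⁻¹ := by group
      rw [h1, ff_eq hMM, ff_eq hMM]
      rfl
    -- the key: steps of the fusion graph fix the value of `ff`
    have hstep : ∀ v x : G, v ∈ X → x ∈ Subgroup.closure {v, x * v * x⁻¹} →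
        x • ff u M v = ff u M v := by
      rintro _ x ⟨g, rfl⟩ hx
      have h0 : R (g * u * g⁻¹) (x * (g * u * g⁻¹) * x⁻¹) := ⟨x, hx, rfl⟩
      have h1 := R_conj g⁻¹ h0
      have h2 : g⁻¹ * (g * u * g⁻¹) * g⁻¹⁻¹ = u := by group
      have h3 : g⁻¹ * (x * (g * u * g⁻¹) * x⁻¹) * g⁻¹⁻¹
          = (g⁻¹ * x * g) * u * (g⁻¹ * x * g)⁻¹ := by group
      rw [h2, h3] at h1
      have h4 : g⁻¹ * x * g ∈ M := hMM (by
        rw [mem_Mu]
        exact Relation.ReflTransGen.single h1)
      rw [ff_eq hMM]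
      rw [← stab_mk, MulAction.mem_stabilizer_iff] at h4
      exact h4
    refine hA G (G ⧸ M) ?_
    refine
      { X := X
        f := ff u M
        conjX := hconj
        conjf := hf
        nrm := ?_
        trans := fun i j => MulAction.exists_smul_eq G i j
        coatom := stab_coatom hM
        inj := stab_inj hM hMn
        sn := ?_
        ex := ?_ }
    · intro N hN v hv hvN
      have h1 := hnrm N hN v hv hvN
      rw [← Subgroup.closure_le, htop] at h1
      exact top_le_iff.mp h1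
    · intro M' hM' i
      unfold prt
      refine sn_gen hJ M' _ ?_
      rintro v ⟨hvX, hvM, hvi⟩
      obtain ⟨N, hN, hvN, hND⟩ := upto_sub ih M' (ihK _ hM'.1) v
        {v | v ∈ X ∧ v ∈ M' ∧ ff u M v ∈ ({i} : Set (G ⧸ M))} ⟨hvX, hvM, hvi⟩ hvM (by
          rintro w ⟨hwX, hwM, hwi⟩ _ x hxM hx
          refine ⟨hconj x w hwX, M'.mul_mem (M'.mul_mem hxM hwM) (M'.inv_mem hxM), ?_⟩
          rw [hf x w hwX, hstep w x hwX hx]
          exact hwi)
      exact ⟨N, hN, hvN, hND.trans (Subgroup.closure_mono Set.inter_subset_left)⟩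
    · obtain ⟨v, hvX, hvM⟩ : ∃ v ∈ X, v ∉ M := by
        by_contra hcon
        push Not at hcon
        have h1 : Subgroup.closure X ≤ M := (Subgroup.closure_le M).mpr hcon
        rw [htop] at h1
        exact hM.1 (top_le_iff.mp h1)
      have hH : Subgroup.closure ({u, v} : Set G) ≠ ⊤ := by
        intro hH
        obtain ⟨g, rfl⟩ := hvX
        have h1 : R u (g * u * g⁻¹) := ⟨g, by rw [hH]; exact Subgroup.mem_top g, rfl⟩
        exact hvM (hMM (E_mem (Relation.ReflTransGen.single h1)))
      obtain ⟨M', hM', hMM'⟩ := (eq_top_or_exists_le_coatom _).resolve_left hH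
      refine ⟨M', ((1 : G) : G ⧸ M), hM', ?_, ?_⟩
      · intro h1
        have hvM' : v ∈ M' := hMM' (Subgroup.subset_closure (by simp))
        rw [h1, stab_mk] at hvM'
        exact hvM (by simpa using hvM')
      · intro h1
        have hup : u ∈ prt X (ff u M) M' {((1 : G) : G ⧸ M)} := by
          refine Subgroup.subset_closure ⟨huX, hMM' (Subgroup.subset_closure (by simp)), ?_⟩
          have h2 := ff_eq hMM 1
          have h3 : (1 : G) * u * 1⁻¹ = u := by group
          rw [h3] at h2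
          exact h2
        rw [h1, Subgroup.mem_bot] at hup
        obtain ⟨g, rfl⟩ := hvX
        apply hvM
        rw [hup]
        have h3 : g * 1 * g⁻¹ = 1 := by group
        rw [h3]
        exact M.one_mem

end Red

/-- local fusion from the abstract theorem -/
theorem prf_HLF (hJ : HJoin) (hA : HAbs) : HLF := by
  intro G _ _ u D hu hD
  exact Red.main hJ hA (Nat.card G + 1) G (Nat.lt_succ_self _) u D hu hD

end LF
end MP7b0bad
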