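import Pool.Agent.Work.MP_7b0bad_ag.LF.Stmts
import Pool.Agent.Work.MP_7b0bad_ag.HFinB

set_option autoImplicit false

/-!
# Local fusion: `StarM 2` for all simple groups and the final theorem
-/

namespace MP7b0bad
namespace LF

/-- conjugates of the involution `v` under the group generated by the involutions `v`, `w` -/
theorem star2_conj {X : Type} [Group X] (v w : X) (hv : v * v = 1) (hw : w * w = 1) (x : X)
    (hx : x ∈ Subgroup.closure ({v, w} : Set X)) :
    (∃ k : ℤ, x * v * x⁻¹ = (v * w) ^ (2 * k) * v) ∧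
      (x * (v * w) * x⁻¹ = v * w ∨ x * (v * w) * x⁻¹ = (v * w)⁻¹) := by
  have hvi : v⁻¹ = v := inv_eq_of_mul_eq_one_left hv
  have hwi : w⁻¹ = w := inv_eq_of_mul_eq_one_left hw
  have hinv : (v * w)⁻¹ = w * v := by rw [mul_inv_rev, hvi, hwi]
  induction hx using Subgroup.closure_induction with
  | mem y hy =>
    rcases hy with rfl | hy
    · refine ⟨⟨0, by simp [hvi, hv]⟩, Or.inr ?_⟩
      rw [hinv, hvi]
      calc y * (y * w) * y = (y * y) * w * y := by group
        _ = w * y := by rw [hv, one_mul]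
    · rw [Set.mem_singleton_iff] at hy
      subst hy
      refine ⟨⟨-1, ?_⟩, Or.inr ?_⟩
      · have h2 : (v * y) ^ (2 * (-1 : ℤ)) = (y * v) * (y * v) := by
          rw [← hinv, show (2 * (-1 : ℤ)) = -1 + -1 by norm_num, zpow_add, zpow_neg_one]
        rw [h2, hwi]
        calc y * v * y = y * v * y * (v * v) := by rw [hv, mul_one]
          _ = y * v * (y * v) * v := by group
      · rw [hinv, hwi]
        calc y * (v * y) * y = y * v * (y * y) := by group
          _ = y * v := by rw [hw, mul_one]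
  | one => exact ⟨⟨0, by simp⟩, Or.inl (by simp)⟩
  | mul a b ha hb iha ihb =>
    obtain ⟨⟨ka, hka⟩, hka'⟩ := iha
    obtain ⟨⟨kb, hkb⟩, hkb'⟩ := ihb
    have hpow : ∀ m : ℤ, a * (v * w) ^ m * a⁻¹ = (a * (v * w) * a⁻¹) ^ m := fun m => by
      rw [conj_zpow]
    refine ⟨?_, ?_⟩
    · have h1 : a * b * v * (a * b)⁻¹ = (a * (v * w) * a⁻¹) ^ (2 * kb) * ((v * w) ^ (2 * ka) * v) := by
        calc a * b * v * (a * b)⁻¹ = a * (b * v * b⁻¹) * a⁻¹ := by group
          _ = a * ((v * w) ^ (2 * kb) * v) * a⁻¹ := by rw [hkb]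
          _ = (a * (v * w) ^ (2 * kb) * a⁻¹) * (a * v * a⁻¹) := by
            simp only [mul_assoc, inv_mul_cancel_left]
          _ = _ := by rw [hpow, hka]
      rcases hka' with h | h
      · refine ⟨kb + ka, ?_⟩
        rw [h1, h, ← mul_assoc, ← zpow_add]
        congr 2
        ring
      · refine ⟨-kb + ka, ?_⟩
        rw [h1, h, ← mul_assoc, inv_zpow', ← zpow_add]
        congr 2
        ring
    · have h1 : a * b * (v * w) * (a * b)⁻¹ = a * (b * (v * w) * b⁻¹) * a⁻¹ := by group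
      rw [h1]
      rcases hkb' with h | h
      · rw [h]
        exact hka'
      · rw [h]
        have h2 : a * (v * w)⁻¹ * a⁻¹ = (a * (v * w) * a⁻¹)⁻¹ := by group
        rw [h2]
        rcases hka' with h3 | h3
        · rw [h3]
          exact Or.inr rfl
        · rw [h3, inv_inv]
          exact Or.inl rfl
  | inv a ha iha =>
    obtain ⟨⟨ka, hka⟩, hka'⟩ := iha
    have hcase : a⁻¹ * (v * w) * a⁻¹⁻¹ = v * w ∨ a⁻¹ * (v * w) * a⁻¹⁻¹ = (v * w)⁻¹ := by
      rcases hka' with h | h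
      · left
        rw [inv_inv]
        calc a⁻¹ * (v * w) * a = a⁻¹ * (a * (v * w) * a⁻¹) * a := by rw [h]
          _ = v * w := by group
      · right
        rw [inv_inv]
        have h2 : v * w = a * (v * w)⁻¹ * a⁻¹ := by
          have h3 : a * (v * w)⁻¹ * a⁻¹ = (a * (v * w) * a⁻¹)⁻¹ := by group
          rw [h3, h, inv_inv]
        calc a⁻¹ * (v * w) * a = a⁻¹ * (a * (v * w)⁻¹ * a⁻¹) * a := by rw [← h2]
          _ = (v * w)⁻¹ := by group
    refine ⟨?_, hcase⟩
    -- `v = a⁻¹ (v w)^(2k) v a`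
    have h4 : v = (a⁻¹ * (v * w) ^ (2 * ka) * a) * (a⁻¹ * v * a) := by
      calc v = a⁻¹ * (a * v * a⁻¹) * a := by group
        _ = a⁻¹ * ((v * w) ^ (2 * ka) * v) * a := by rw [hka]
        _ = _ := by simp only [mul_assoc, mul_inv_cancel_left]
    have h5 : a⁻¹ * (v * w) ^ (2 * ka) * a = (a⁻¹ * (v * w) * a⁻¹⁻¹) ^ (2 * ka) := by
      rw [conj_zpow, inv_inv]
    have h6 : a⁻¹ * v * a⁻¹⁻¹ = ((a⁻¹ * (v * w) * a⁻¹⁻¹) ^ (2 * ka))⁻¹ * v := by
      rw [← h5, inv_inv]
      rw [eq_inv_mul_iff_mul_eq]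
      exact h4.symm
    rcases hcase with h | h
    · refine ⟨-ka, ?_⟩
      rw [h6, h, ← zpow_neg]
      congr 2
      ring
    · refine ⟨ka, ?_⟩
      rw [h6, h, inv_zpow, inv_inv]

/-- a subnormal subgroup containing `u` contains the simple normal subgroup `L'` -/
theorem star2_sn {X : Type} [Group X] (L' : Subgroup X) (u : X) (hL : L'.Normal)
    (hs : IsSimpleGroup L') (hc : ∀ x : X, (∀ l ∈ L', x * l = l * x) → x = 1) (hu : u ≠ 1)
    (K T : Subgroup X) (h : SN K T) : L' ≤ T → u ∈ K → L' ≤ K := by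
  induction h with
  | refl H => exact fun h _ => h
  | @step H K T hHK hnor _ ih =>
    intro hT huH
    have hK : L' ≤ K := ih hT (hHK huH)
    have hM : (H.subgroupOf L').Normal := by
      constructor
      intro n hn g
      rw [Subgroup.mem_subgroupOf] at hn ⊢
      exact hnor g (hK g.2) n hn
    rcases hM.eq_bot_or_eq_top with h1 | h1
    · exfalso
      apply hu
      apply hc
      intro l hl
      have h2 : u * l * u⁻¹ * l⁻¹ ∈ L' := L'.mul_mem (hL.conj_mem l hl u) (L'.inv_mem hl)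
      have h3 : u * l * u⁻¹ * l⁻¹ ∈ H := by
        have h4 := H.mul_mem huH (hnor l (hK hl) u⁻¹ (H.inv_mem huH))
        simpa only [mul_assoc] using h4
      have h5 : (⟨u * l * u⁻¹ * l⁻¹, h2⟩ : L') ∈ H.subgroupOf L' := by
        rw [Subgroup.mem_subgroupOf]
        exact h3
      rw [h1, Subgroup.mem_bot] at h5
      have h6 : u * l * u⁻¹ * l⁻¹ = 1 := congrArg Subtype.val h5
      rw [mul_inv_eq_one, mul_inv_eq_iff_eq_mul] at h6
      exact h6
    · exact Subgroup.subgroupOf_eq_top.1 h1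

theorem prf_HStar2 (hLF : HLF) : HStar2 := by
  intro L _ hsL X _ _ L' u hL ⟨e⟩ hc hu _
  have hnt : Nontrivial L' := e.toEquiv.nontrivial
  have hs : IsSimpleGroup L' :=
    IsSimpleGroup.isSimpleGroup_of_surjective e.symm.toMonoidHom e.symm.surjective
  have hu1 : u ≠ 1 := by
    rintro rfl
    rw [orderOf_one] at hu
    omega
  have huu : u * u = 1 := by
    have h := pow_orderOf_eq_one u
    rw [hu, pow_two] at h
    exact h
  have hui : u⁻¹ = u := inv_eq_of_mul_eq_one_left huu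
  have hP : IsPGroup 2 (Subgroup.zpowers u) := by
    refine IsPGroup.of_card (n := 1) ?_
    rw [Nat.card_zpowers, hu, pow_one]
  obtain ⟨hN1, -, -, hN4⟩ := all_HNor 2 X (Subgroup.zpowers u) hP
  have huG : u ∈ Gam 2 (Subgroup.zpowers u) := hN1 (Subgroup.mem_zpowers u)
  set Γ := Gam 2 (Subgroup.zpowers u) with hΓ
  set D : Set X := {x | ∃ g ∈ Γ, x = g * u * g⁻¹} with hD
  have hDΓ : Subgroup.closure D ≤ Γ := by
    rw [Subgroup.closure_le]
    rintro x ⟨g, hg, rfl⟩
    exact Γ.mul_mem (Γ.mul_mem hg huG) (Γ.inv_mem hg)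
  obtain ⟨N, hN, huN, hND⟩ := hLF X u D ⟨1, Γ.one_mem, by simp⟩ (by
    rintro v ⟨g, hg, hvg⟩ x hx
    set w := x * v * x⁻¹ with hw
    have hvv : v * v = 1 := by
      rw [hvg]
      calc g * u * g⁻¹ * (g * u * g⁻¹) = g * (u * u) * g⁻¹ := by group
        _ = 1 := by rw [huu]; group
    have hww : w * w = 1 := by
      rw [hw]
      calc x * v * x⁻¹ * (x * v * x⁻¹) = x * (v * v) * x⁻¹ := by group
        _ = 1 := by rw [hvv]; group
    have hvi : v⁻¹ = v := inv_eq_of_mul_eq_one_left hvv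
    have hwi : w⁻¹ = w := inv_eq_of_mul_eq_one_left hww
    have hinv : (v * w)⁻¹ = w * v := by rw [mul_inv_rev, hvi, hwi]
    obtain ⟨⟨k, hk⟩, -⟩ := star2_conj v w hvv hww x hx
    have hodd : (v * w) ^ (2 * k + 1) = 1 := by
      have h1 : w * v = (v * w) ^ (2 * k) := by
        calc w * v = (x * v * x⁻¹) * v := by rw [← hw]
          _ = (v * w) ^ (2 * k) * v * v := by rw [hk]
          _ = (v * w) ^ (2 * k) := by rw [mul_assoc, hvv, mul_one]
      rw [zpow_add, ← h1, zpow_one, ← hinv, inv_mul_cancel]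
    -- the element `a₀`
    set a₀ := g⁻¹ * (v * w) * g with ha₀
    have ha₀odd : a₀ ^ (2 * k + 1) = 1 := by
      have h1 : a₀ = g⁻¹ * (v * w) * g⁻¹⁻¹ := by rw [inv_inv]
      rw [h1, conj_zpow, hodd]
      group
    have hug : u = g⁻¹ * v * g := by
      rw [hvg]
      group
    have hinvu : u * a₀ * u⁻¹ = a₀⁻¹ := by
      have h1 : a₀⁻¹ = g⁻¹ * (w * v) * g := by
        rw [ha₀, ← hinv]
        group
      rw [h1, hui]
      calc u * a₀ * u = (g⁻¹ * v * g) * (g⁻¹ * (v * w) * g) * (g⁻¹ * v * g) := by rw [← hug]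
        _ = g⁻¹ * ((v * v) * w * v) * g := by group
        _ = g⁻¹ * (w * v) * g := by rw [hvv, one_mul]
    have hinvA : ∀ m : ℤ, u * a₀ ^ m * u⁻¹ = (a₀ ^ m)⁻¹ := by
      intro m
      rw [← conj_zpow, hinvu, inv_zpow]
    have hcard : ¬ 2 ∣ Nat.card (Subgroup.zpowers a₀) := by
      rw [Nat.card_zpowers]
      intro h2
      have h3 : (orderOf a₀ : ℤ) ∣ 2 * k + 1 := orderOf_dvd_iff_zpow_eq_one.2 ha₀odd
      have h4 : (2 : ℤ) ∣ 2 * k + 1 := dvd_trans (by exact_mod_cast h2) h3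
      omega
    have hnorm : ∀ q ∈ Subgroup.zpowers u, ∀ a ∈ Subgroup.zpowers a₀,
        q * a * q⁻¹ ∈ Subgroup.zpowers a₀ := by
      have h1 : u ∈ Subgroup.normalizer (Subgroup.zpowers a₀ : Set X) := by
        rw [Subgroup.mem_normalizer_iff]
        intro h
        constructor
        · rintro ⟨m, rfl⟩
          show u * a₀ ^ m * u⁻¹ ∈ _
          rw [hinvA]
          exact Subgroup.inv_mem _ (Subgroup.zpow_mem_zpowers a₀ m)
        · rintro ⟨m, hm⟩
          have hm' : a₀ ^ m = u * h * u⁻¹ := hm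
          have h2 : h = u * a₀ ^ m * u⁻¹ := by
            rw [hm', hui]
            calc h = (u * u) * h * (u * u) := by rw [huu, one_mul, mul_one]
              _ = u * (u * h * u) * u := by group
          rw [h2, hinvA]
          exact Subgroup.inv_mem _ (Subgroup.zpow_mem_zpowers a₀ m)
      have h2 : Subgroup.zpowers u ≤ Subgroup.normalizer (Subgroup.zpowers a₀ : Set X) :=
        Subgroup.zpowers_le.2 h1
      intro q hq a ha
      exact (Subgroup.mem_normalizer_iff.1 (h2 hq) a).1 ha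
    have ha2 : a₀⁻¹ * a₀⁻¹ ∈ Γ := by
      have h1 := hN4 (Subgroup.zpowers a₀) (Subgroup.zpowers u) le_rfl hcard hnorm a₀
        (Subgroup.mem_zpowers a₀) u (Subgroup.mem_zpowers u)
      have h2 : a₀⁻¹ * u * a₀ * u⁻¹ = a₀⁻¹ * a₀⁻¹ := by
        calc a₀⁻¹ * u * a₀ * u⁻¹ = a₀⁻¹ * (u * a₀ * u⁻¹) := by group
          _ = a₀⁻¹ * a₀⁻¹ := by rw [hinvu]
      rw [h2] at h1
      exact h1
    have ha1 : a₀ ∈ Γ := by
      have h1 : a₀ = (a₀⁻¹ * a₀⁻¹) ^ k := by
        have h2 : (a₀⁻¹ * a₀⁻¹) = a₀ ^ (-2 : ℤ) := by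
          rw [show (-2 : ℤ) = -1 + -1 by norm_num, zpow_add, zpow_neg_one]
        rw [h2, ← zpow_mul]
        have h3 : a₀ ^ (-2 * k) = a₀ ^ (-(2 * k + 1) + 1) := by
          congr 1
          ring
        rw [h3, zpow_add, zpow_neg, ha₀odd, inv_one, one_mul, zpow_one]
      rw [h1]
      exact Γ.zpow_mem ha2 k
    have hvΓ : v ∈ Γ := by
      rw [hvg]
      exact Γ.mul_mem (Γ.mul_mem hg huG) (Γ.inv_mem hg)
    have hvwΓ : v * w ∈ Γ := by
      have h1 : v * w = g * a₀ * g⁻¹ := by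
        rw [ha₀]
        group
      rw [h1]
      exact Γ.mul_mem (Γ.mul_mem hg ha1) (Γ.inv_mem hg)
    have hwΓ : w ∈ Γ := by
      have h1 : w = v⁻¹ * (v * w) := by group
      rw [h1]
      exact Γ.mul_mem (Γ.inv_mem hvΓ) hvwΓ
    have hxΓ : x ∈ Γ := by
      have h1 : Subgroup.closure ({v, w} : Set X) ≤ Γ := by
        rw [Subgroup.closure_le]
        rintro y (rfl | hy)
        · exact hvΓ
        · rw [Set.mem_singleton_iff] at hy
          rw [hy]
          exact hwΓ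
      exact h1 hx
    refine ⟨x * g, Γ.mul_mem hxΓ hg, ?_⟩
    rw [hw, hvg]
    group)
  have h1 : L' ≤ N := star2_sn L' u hL hs hc hu1 N ⊤ hN le_top huN
  exact h1.trans (hND.trans hDΓ)

/-- `Gam 2 P = ⊤` for every `2`-subgroup `P` of a finite group with normal closure the whole
group -/
theorem fin2 (hLF : HLF) (G : Type) [Group G] [Finite G] (P : Subgroup G) (hP : IsPGroup 2 P)
    (hn : Subgroup.normalClosure (P : Set G) = ⊤) : Gam 2 P = ⊤ :=
  all_HRedM 2 G P hP hn (fun _ _ _ L _ _ _ hs _ _ => prf_HStar2 hLF L hs)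

end LF
end MP7b0bad
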