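import Pool.Agent.Work.MP_7b0bad_ag.LF.AbsC
import Pool.Agent.Work.MP_7b0bad_ag.LF.Join
import Pool.Agent.Work.MP_7b0bad_ag.LF.Red
import Pool.Agent.Work.MP_7b0bad_ag.LF.Star2

set_option autoImplicit false

/-!
# MP_7b0bad_ag: local fusion, final form
-/

namespace MP7b0bad
namespace LF

/-- local fusion -/
theorem all_HLF : HLF := prf_HLF prf_HJoin (prf_HAbs prf_HJoin)

/-- `Gam 2 P = ⊤` for all finite groups generated by the conjugates of the 2-subgroup `P` -/
theorem all_fin2 (G : Type) [Group G] [Finite G] (P : Subgroup G) (hP : IsPGroup 2 P)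
    (hn : Subgroup.normalClosure (P : Set G) = ⊤) : Gam 2 P = ⊤ := fin2 all_HLF G P hP hn

end LF
end MP7b0bad
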