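import Pool.Agent.Work.MP_7b0bad_ag.LF.Base

set_option autoImplicit false
set_option linter.unusedSectionVars false
set_option linter.unusedVariables false

/-!
# Local fusion: the abstract configuration, first part
-/

namespace MP7b0bad
namespace LF

open scoped Pointwise

section

variable {G Ω : Type} [Group G] [Finite G] [MulAction G Ω] [Finite Ω] (c : Cfg G Ω)

namespace Cfg

/-- the subgroup generated by the elements `v` of the class in `H` with `f v ∈ D` -/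
def pt (H : Subgroup G) (D : Set Ω) : Subgroup G := prt c.X c.f H D

/-- the stabiliser -/
abbrev st (_c : Cfg G Ω) (i : Ω) : Subgroup G := MulAction.stabilizer G i

omit [Finite G] [Finite Ω] in
theorem pt_le (H : Subgroup G) (D : Set Ω) : c.pt H D ≤ H := by
  unfold pt prt
  rw [Subgroup.closure_le]
  rintro v ⟨_, h, _⟩
  exact h

omit [Finite G] [Finite Ω] in
theorem mem_pt {H : Subgroup G} {D : Set Ω} {v : G} (h1 : v ∈ c.X) (h2 : v ∈ H)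
    (h3 : c.f v ∈ D) : v ∈ c.pt H D := Subgroup.subset_closure ⟨h1, h2, h3⟩

omit [Finite G] [Finite Ω] in
theorem pt_le_iff {H K : Subgroup G} {D : Set Ω} :
    c.pt H D ≤ K ↔ ∀ v ∈ c.X, v ∈ H → c.f v ∈ D → v ∈ K := by
  unfold pt prt
  rw [Subgroup.closure_le]
  constructor
  · intro h v h1 h2 h3
    exact h ⟨h1, h2, h3⟩
  · rintro h v ⟨h1, h2, h3⟩
    exact h v h1 h2 h3

omit [Finite G] [Finite Ω] in
theorem pt_mono {H K : Subgroup G} {D E : Set Ω} (h1 : H ≤ K) (h2 : D ⊆ E) :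
    c.pt H D ≤ c.pt K E := by
  rw [pt_le_iff]
  intro v h3 h4 h5
  exact c.mem_pt h3 (h1 h4) (h2 h5)

omit [Finite G] [Finite Ω] in
theorem pt_le_pt {H K : Subgroup G} {D : Set Ω} (h : c.pt H D ≤ K) : c.pt H D ≤ c.pt K D := by
  rw [pt_le_iff]
  intro v h3 h4 h5
  exact c.mem_pt h3 (h (c.mem_pt h3 h4 h5)) h5

omit [Finite G] [Finite Ω] in
/-- it suffices to look at points -/
theorem pt_le_iff_sing {H K : Subgroup G} {D : Set Ω} :
    c.pt H D ≤ K ↔ ∀ d ∈ D, c.pt H {d} ≤ K := by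
  constructor
  · intro h d hd
    exact (c.pt_mono le_rfl (Set.singleton_subset_iff.2 hd)).trans h
  · intro h
    rw [pt_le_iff]
    intro v h3 h4 h5
    exact h _ h5 (c.mem_pt h3 h4 rfl)

omit [Finite G] [Finite Ω] in
theorem pt_empty (H : Subgroup G) : c.pt H ∅ = ⊥ := by
  rw [eq_bot_iff, pt_le_iff]
  intro v _ _ h
  exact absurd h (Set.notMem_empty _)

omit [Finite G] [Finite Ω] in
theorem pt_union (H : Subgroup G) (D E : Set Ω) : c.pt H (D ∪ E) = c.pt H D ⊔ c.pt H E := by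
  apply le_antisymm
  · rw [pt_le_iff]
    intro v h3 h4 h5
    rcases h5 with h5 | h5
    · exact Subgroup.mem_sup_left (c.mem_pt h3 h4 h5)
    · exact Subgroup.mem_sup_right (c.mem_pt h3 h4 h5)
  · exact sup_le (c.pt_mono le_rfl Set.subset_union_left) (c.pt_mono le_rfl Set.subset_union_right)

omit [Finite G] [Finite Ω] in
theorem cj_pt_le (g : G) (H : Subgroup G) (D : Set Ω) :
    cj g (c.pt H D) ≤ c.pt (cj g H) (g • D) := by
  suffices h : c.pt H D ≤ cj g⁻¹ (c.pt (cj g H) (g • D)) by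
    have := cj_mono (g := g) h
    rwa [cj_cj_inv] at this
  rw [pt_le_iff]
  intro v h3 h4 h5
  rw [mem_cj]
  have h6 : g * v * g⁻¹ ∈ c.pt (cj g H) (g • D) := by
    refine c.mem_pt (c.conjX g v h3) (conj_mem_cj h4) ?_
    rw [c.conjf g v h3]
    exact Set.smul_mem_smul_set h5
  simpa using h6

omit [Finite G] [Finite Ω] in
theorem cj_pt (g : G) (H : Subgroup G) (D : Set Ω) :
    cj g (c.pt H D) = c.pt (cj g H) (g • D) := by
  apply le_antisymm (c.cj_pt_le g H D)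
  have h := c.cj_pt_le g⁻¹ (cj g H) (g • D)
  rw [cj_inv_cj, inv_smul_smul] at h
  have := cj_mono (g := g) h
  rwa [cj_cj_inv] at this

omit [Finite G] [Finite Ω] in
theorem cj_pt_sing (g : G) (H : Subgroup G) (i : Ω) :
    cj g (c.pt H {i}) = c.pt (cj g H) {g • i} := by
  rw [cj_pt, Set.smul_set_singleton]

omit [Finite G] [Finite Ω] in
theorem f_mem {v : G} (hv : v ∈ c.X) : v ∈ c.st (c.f v) := by
  rw [MulAction.mem_stabilizer_iff, ← c.conjf v v hv]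
  simp

omit [Finite G] [Finite Ω] in
theorem pt_le_st (H : Subgroup G) (i : Ω) : c.pt H {i} ≤ c.st i := by
  rw [pt_le_iff]
  intro v h3 _ h5
  rw [Set.mem_singleton_iff] at h5
  rw [← h5]
  exact c.f_mem h3

omit [Finite G] [Finite Ω] in
theorem exX {H : Subgroup G} {D : Set Ω} (h : c.pt H D ≠ ⊥) : ∃ v ∈ c.X, v ∈ c.pt H D := by
  by_contra hne
  push Not at hne
  apply h
  rw [eq_bot_iff, pt_le_iff]
  intro v h3 h4 h5
  exact absurd (c.mem_pt h3 h4 h5) (hne v h3)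

omit [Finite Ω] in
theorem sn_pt [Finite Ω] (hJ : HJoin) {M : Subgroup G} (hM : IsCoatom M) (D : Set Ω) :
    SN (c.pt M D) M := by
  refine Set.Finite.induction_on (motive := fun s _ => SN (c.pt M s) M) D (Set.toFinite D) ?_ ?_
  · rw [pt_empty]
    refine SN.step bot_le ?_ (SN.refl M)
    intro g _ h hh
    rw [Subgroup.mem_bot] at hh ⊢
    rw [hh]
    simp
  · intro a s _ _ ih
    rw [Set.insert_eq, pt_union]
    exact hJ G _ _ _ (c.sn M hM a) ih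

omit [Finite G] [Finite Ω] in
theorem nz_ne {M T : Subgroup G} (hM : IsCoatom M) (hT : T ≤ M) (hv : ∃ v ∈ c.X, v ∈ T) :
    nz T ≠ ⊤ := by
  intro h
  have h1 := normal_of_nz h
  obtain ⟨v, hv, hvT⟩ := hv
  have h2 := c.nrm T h1 v hv hvT
  rw [h2] at hT
  exact hM.1 (top_le_iff.1 hT)

/-- the points `l` for which the subgroup of `M` has the maximal order -/
def G1 (y : ℕ) (M : Subgroup G) : Set Ω := {l | M ≠ c.st l ∧ Nat.card (c.pt M {l}) = y}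

/-- the points of `G1` shared by `M` and `M'` -/
def G2 (y : ℕ) (M M' : Subgroup G) : Set Ω :=
  {l | l ∈ c.G1 y M ∧ M' ≠ c.st l ∧ c.pt M {l} ≤ M'}

/-- the maxima -/
structure Mx (y n : ℕ) : Prop where
  hJ : HJoin
  hy : ∀ (M : Subgroup G) (i : Ω), IsCoatom M → M ≠ c.st i → Nat.card (c.pt M {i}) ≤ y
  hy1 : 1 < y
  hn : ∀ M M' : Subgroup G, IsCoatom M → IsCoatom M' → M ≠ M' → (c.G2 y M M').ncard ≤ n
  hn1 : 1 ≤ n

variable {c}

variable {y n : ℕ} (m : c.Mx y n)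

omit [Finite G] [Finite Ω] in
theorem mem_G1 {M : Subgroup G} {l : Ω} :
    l ∈ c.G1 y M ↔ M ≠ c.st l ∧ Nat.card (c.pt M {l}) = y := Iff.rfl

omit [Finite G] [Finite Ω] in
theorem mem_G2 {M M' : Subgroup G} {l : Ω} :
    l ∈ c.G2 y M M' ↔ l ∈ c.G1 y M ∧ M' ≠ c.st l ∧ c.pt M {l} ≤ M' := Iff.rfl

include m

theorem Mx.pt_eq {M M' : Subgroup G} (hM' : IsCoatom M') {l : Ω} (hl : l ∈ c.G2 y M M') :
    c.pt M {l} = c.pt M' {l} := by
  obtain ⟨⟨h1, h2⟩, h3, h4⟩ := hl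
  apply Subgroup.eq_of_le_of_card_ge (c.pt_le_pt h4)
  rw [h2]
  exact m.hy M' l hM' h3

theorem Mx.G2_symm' {M M' : Subgroup G} (hM' : IsCoatom M') {l : Ω}
    (hl : l ∈ c.G2 y M M') : l ∈ c.G2 y M' M := by
  have h := m.pt_eq hM' hl
  obtain ⟨⟨h1, h2⟩, h3, h4⟩ := hl
  refine ⟨⟨h3, ?_⟩, h1, ?_⟩
  · rw [← h, h2]
  · rw [← h]
    exact c.pt_le _ _

theorem Mx.G2_symm {M M' : Subgroup G} (hM : IsCoatom M) (hM' : IsCoatom M') :
    c.G2 y M M' = c.G2 y M' M :=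
  Set.Subset.antisymm (fun _ h => m.G2_symm' hM' h) (fun _ h => m.G2_symm' hM h)

theorem Mx.pt_eq_set {M M' : Subgroup G} (hM : IsCoatom M) (hM' : IsCoatom M') {D : Set Ω}
    (hD : D ⊆ c.G2 y M M') : c.pt M D = c.pt M' D := by
  apply le_antisymm
  · apply pt_le_pt
    rw [pt_le_iff_sing]
    intro d hd
    exact (hD hd).2.2
  · apply pt_le_pt
    rw [pt_le_iff_sing]
    intro d hd
    exact (m.G2_symm' hM' (hD hd)).2.2

theorem Mx.ne_bot {M : Subgroup G} {l : Ω} (hl : l ∈ c.G1 y M) : c.pt M {l} ≠ ⊥ := by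
  intro h
  have h1 := hl.2
  rw [h, Subgroup.card_bot] at h1
  have := m.hy1
  omega

theorem Mx.exX {M : Subgroup G} {D : Set Ω} (hD : D ⊆ c.G1 y M) (hne : D.Nonempty) :
    ∃ v ∈ c.X, v ∈ c.pt M D := by
  obtain ⟨d, hd⟩ := hne
  obtain ⟨v, h1, h2⟩ := c.exX (m.ne_bot (hD hd))
  exact ⟨v, h1, c.pt_mono le_rfl (Set.singleton_subset_iff.2 hd) h2⟩

omit m in
omit [Finite G] [Finite Ω] in
theorem smul_G1 {M : Subgroup G} {g : G} (hg : g ∈ M) {l : Ω} (hl : l ∈ c.G1 y M) :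
    g • l ∈ c.G1 y M := by
  obtain ⟨h1, h2⟩ := hl
  refine ⟨?_, ?_⟩
  · intro h
    apply h1
    rw [← cj_inj (g := g), cj_of_mem hg, cj_stab]
    exact h
  · rw [← h2, ← card_cj g (c.pt M {l}), cj_pt_sing, cj_of_mem hg]

omit m in
omit [Finite G] [Finite Ω] in
theorem pt_smul {M : Subgroup G} {g : G} (hg : g ∈ M) (l : Ω) :
    c.pt M {g • l} = cj g (c.pt M {l}) := by
  rw [cj_pt_sing, cj_of_mem hg]

omit m in
omit [Finite G] [Finite Ω] in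
theorem smul_G2 {M M' : Subgroup G} {g : G} (hg : g ∈ M) (hg' : g ∈ M') {l : Ω}
    (hl : l ∈ c.G2 y M M') : g • l ∈ c.G2 y M M' := by
  obtain ⟨h1, h2, h3⟩ := hl
  refine ⟨smul_G1 hg h1, ?_, ?_⟩
  · intro h
    apply h2
    rw [← cj_inj (g := g), cj_of_mem hg', cj_stab]
    exact h
  · rw [pt_smul hg]
    have := cj_mono (g := g) h3
    rwa [cj_of_mem hg'] at this

omit m in
omit [Finite Ω] in
/-- elements of `M` that preserve `D` normalise `pt M D` -/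
theorem mem_nz_pt [Finite Ω] {M : Subgroup G} {D : Set Ω} {g : G} (hg : g ∈ M)
    (hD : ∀ d ∈ D, g • d ∈ D) : g ∈ nz (c.pt M D) := by
  apply mem_nz_of_le
  rw [cj_pt, cj_of_mem hg]
  apply c.pt_mono le_rfl
  rintro _ ⟨d, hd, rfl⟩
  exact hD d hd

/-- the basic step -/
theorem Mx.lemA {M M3 : Subgroup G} (hM : IsCoatom M) (hM3 : IsCoatom M3) {Γ : Set Ω}
    (hΓ : Γ ⊆ c.G1 y M) (h3 : nz (c.pt M Γ) ≤ M3) (hne : M ≠ M3) :
    ∃ (U : Subgroup G) (Δ : Set Ω), U ≤ M ∧ Γ ⊆ Δ ∧ Δ ⊆ c.G1 y M ∧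
      (∀ g ∈ U, ∀ d ∈ Δ, g • d ∈ Δ) ∧ (∀ d ∈ Δ, c.pt M {d} ≤ nz (c.pt M Γ)) ∧
      (∃ g ∈ U, ∃ l ∈ Γ, g • l ∉ Γ) := by
  have hnot : ¬ M ≤ nz (c.pt M Γ) := fun h => hne (coatom_eq hM hM3 (h.trans h3))
  obtain ⟨U, hTU, hUM, hU, hy⟩ := zLem (c.sn_pt m.hJ hM Γ) hnot
  refine ⟨U, {d | ∃ g ∈ U, ∃ l ∈ Γ, d = g • l}, hUM, ?_, ?_, ?_, ?_, ?_⟩
  · intro l hl
    exact ⟨1, U.one_mem, l, hl, (one_smul _ _).symm⟩
  · rintro _ ⟨g, hg, l, hl, rfl⟩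
    exact smul_G1 (hUM hg) (hΓ hl)
  · rintro g hg _ ⟨g', hg', l, hl, rfl⟩
    exact ⟨g * g', U.mul_mem hg hg', l, hl, (mul_smul _ _ _).symm⟩
  · rintro _ ⟨g, hg, l, hl, rfl⟩
    rw [pt_smul (hUM hg)]
    exact (cj_mono (c.pt_mono le_rfl (Set.singleton_subset_iff.2 hl))).trans (hy g hg)
  · by_contra hcon
    push Not at hcon
    apply hU
    intro g hg
    exact mem_nz_pt (hUM hg) (hcon g hg)

/-- counting in the basic step -/
theorem Mx.lemA2 {M M3 : Subgroup G} (hM : IsCoatom M) (hM3 : IsCoatom M3) {Γ : Set Ω}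
    (hΓ : Γ ⊆ c.G1 y M) (h3 : nz (c.pt M Γ) ≤ M3) (hne : M ≠ M3) (hcard : n ≤ Γ.ncard) :
    ∃ (U : Subgroup G) (Δ : Set Ω) (m' : Ω), U ≤ M ∧ Γ ⊆ Δ ∧ Δ ⊆ c.G1 y M ∧
      (∀ g ∈ U, ∀ d ∈ Δ, g • d ∈ Δ) ∧ (∀ d ∈ Δ, c.pt M {d} ≤ nz (c.pt M Γ)) ∧
      (∃ g ∈ U, ∃ l ∈ Γ, g • l ∉ Γ) ∧ Δ.ncard = n + 1 ∧ Γ.ncard = n ∧ m' ∈ Δ ∧ M3 = c.st m' ∧
      c.G2 y M M3 = Δ \ {m'} := by
  obtain ⟨U, Δ, hUM, hΓΔ, hΔ, hUΔ, hnz, g, hg, l, hl, hgl⟩ := m.lemA hM hM3 hΓ h3 hne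
  have hss : Γ ⊂ Δ := ⟨hΓΔ, fun h => hgl (h (hUΔ g hg l (hΓΔ hl)))⟩
  have hlt := Set.ncard_lt_ncard hss (Set.toFinite Δ)
  have hG2 : ∀ d ∈ Δ, M3 ≠ c.st d → d ∈ c.G2 y M M3 := by
    intro d hd hd3
    exact ⟨hΔ hd, hd3, (hnz d hd).trans h3⟩
  have hn := m.hn M M3 hM hM3 hne
  have hex : ∃ m' ∈ Δ, M3 = c.st m' := by
    by_contra hcon
    push Not at hcon
    have hsub : Δ ⊆ c.G2 y M M3 := fun d hd => hG2 d hd (hcon d hd)
    have := Set.ncard_le_ncard hsub (Set.toFinite _)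
    omega
  obtain ⟨m', hm', hM3m⟩ := hex
  have hsub : Δ \ {m'} ⊆ c.G2 y M M3 := by
    rintro d ⟨hd, hdm⟩
    apply hG2 d hd
    intro h
    apply hdm
    rw [Set.mem_singleton_iff]
    apply c.inj
    exact (hM3m.symm.trans h).symm
  have hc := Set.ncard_sdiff_singleton_add_one hm' (Set.toFinite Δ)
  have hle := Set.ncard_le_ncard hsub (Set.toFinite _)
  have h1 : Δ.ncard = n + 1 := by omega
  refine ⟨U, Δ, m', hUM, hΓΔ, hΔ, hUΔ, hnz, ⟨g, hg, l, hl, hgl⟩, h1, by omega, hm', hM3m, ?_⟩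
  symm
  apply Set.eq_of_subset_of_ncard_le hsub _ (Set.toFinite _)
  omega

/-- Lemma 2 -/
theorem Mx.lem2 {M M' M3 : Subgroup G} (hM : IsCoatom M) (hM3 : IsCoatom M3)
    (hcard : (c.G2 y M M').ncard = n)
    (h3 : nz (c.pt M (c.G2 y M M')) ≤ M3) (hne : M ≠ M3) :
    ∃ (Δ : Set Ω) (m' e : Ω) (x : G), Δ ⊆ c.G1 y M ∧ Δ.ncard = n + 1 ∧
      Δ = insert e (c.G2 y M M') ∧ e ∉ c.G2 y M M' ∧ m' ∈ Δ ∧ M3 = c.st m' ∧
      c.G2 y M M3 = Δ \ {m'} ∧ c.pt M Δ ≤ nz (c.pt M (c.G2 y M M')) ∧ x ∈ M ∧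
      (∀ d ∈ Δ, x • d ∈ Δ) ∧ x • e ∈ c.G2 y M M' := by
  obtain ⟨U, Δ, m', hUM, hΓΔ, hΔ, hUΔ, hnz, ⟨g, hg, l, hl, hgl⟩, hΔn, hΓn, hm', hM3m, hG2⟩ :=
    m.lemA2 hM hM3 (fun _ h => h.1) h3 hne hcard.ge
  have hd : (Δ \ c.G2 y M M').ncard = 1 := by
    rw [Set.ncard_sdiff hΓΔ (Set.toFinite _)]
    omega
  obtain ⟨e, he⟩ := Set.ncard_eq_one.1 hd
  have heΔ : e ∈ Δ \ c.G2 y M M' := by
    rw [he]
    exact Set.mem_singleton e
  have hΔe : Δ = insert e (c.G2 y M M') := by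
    rw [Set.insert_eq, ← he]
    exact (Set.sdiff_union_of_subset hΓΔ).symm
  have hgl' : g • l = e := by
    have : g • l ∈ Δ \ c.G2 y M M' := ⟨hUΔ g hg l (hΓΔ hl), hgl⟩
    rw [he] at this
    exact this
  refine ⟨Δ, m', e, g⁻¹, hΔ, hΔn, hΔe, heΔ.2, hm', hM3m, hG2, ?_, M.inv_mem (hUM hg), ?_, ?_⟩
  · rw [pt_le_iff_sing]
    exact hnz
  · intro d hd
    exact hUΔ g⁻¹ (U.inv_mem hg) d hd
  · rw [← hgl', inv_smul_smul]
    exact hl

end Cfg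

end

end LF
end MP7b0bad
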