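import Pool.Agent.Work.MP_7b0bad_ag.LF.AbsA

set_option autoImplicit false
set_option linter.unusedSectionVars false
set_option linter.unusedVariables false

/-!
# Local fusion: the abstract configuration, second part (clusters; the graph)
-/

namespace MP7b0bad
namespace LF

open scoped Pointwise

section

variable {G Ω : Type} [Group G] [Finite G] [MulAction G Ω] [Finite Ω]

namespace Cfg

variable {c : Cfg G Ω} {y n : ℕ}

/-- a cluster -/
structure Cl (c : Cfg G Ω) (y n : ℕ) (M : Subgroup G) (Δ : Set Ω) : Prop where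
  hM : IsCoatom M
  hΔ : Δ ⊆ c.G1 y M
  card : Δ.ncard = n + 1
  ex : ∃ d ∈ Δ, c.pt M Δ ≤ c.st d

/-- existence of the maxima -/
theorem exMx (c : Cfg G Ω) (hJ : HJoin) : ∃ y n : ℕ, c.Mx y n ∧ ∃ M M' : Subgroup G,
    IsCoatom M ∧ IsCoatom M' ∧ M ≠ M' ∧ (c.G2 y M M').ncard = n := by
  obtain ⟨M0, i0, hM0, hne0, hbot0⟩ := c.ex
  obtain ⟨⟨M1, i1⟩, ⟨hM1, hne1⟩, hmax1⟩ := Set.exists_max_image
    {a : Subgroup G × Ω | IsCoatom a.1 ∧ a.1 ≠ c.st a.2} (fun a => Nat.card (c.pt a.1 {a.2}))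
    (Set.toFinite _) ⟨(M0, i0), hM0, hne0⟩
  simp only at hM1 hne1 hmax1
  set y := Nat.card (c.pt M1 {i1}) with hy
  have hy' : ∀ (M : Subgroup G) (i : Ω), IsCoatom M → M ≠ c.st i →
      Nat.card (c.pt M {i}) ≤ y := fun M i h1 h2 => hmax1 (M, i) ⟨h1, h2⟩
  have hy1 : 1 < y := lt_of_lt_of_le (Subgroup.one_lt_card_iff_ne_bot _ |>.2 hbot0)
    (hy' M0 i0 hM0 hne0)
  -- Lemma 1
  have hnot : ¬ M1 ≤ c.st i1 := fun h => hne1 (coatom_eq hM1 (c.coatom i1) h)
  obtain ⟨x, hx, hxi, hle⟩ := cLem (c.sn M1 hM1 i1) (c.pt_le_st M1 i1) hnot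
  have hxi' : x • i1 ≠ i1 := hxi
  rw [cj_stab] at hle
  have hne2 : M1 ≠ c.st (x • i1) := by
    intro h
    apply hne1
    rw [← cj_inj (g := x), cj_of_mem hx, cj_stab]
    exact h
  have hmem : i1 ∈ c.G2 y M1 (c.st (x • i1)) :=
    ⟨⟨hne1, hy.symm⟩, fun h => hxi' (c.inj _ _ h), hle⟩
  obtain ⟨⟨M2, M3⟩, ⟨hM2, hM3, hne3⟩, hmax2⟩ := Set.exists_max_image
    {a : Subgroup G × Subgroup G | IsCoatom a.1 ∧ IsCoatom a.2 ∧ a.1 ≠ a.2}
    (fun a => (c.G2 y a.1 a.2).ncard)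
    (Set.toFinite _) ⟨(M1, c.st (x • i1)), hM1, c.coatom _, hne2⟩
  simp only at hM2 hM3 hne3 hmax2
  refine ⟨y, (c.G2 y M2 M3).ncard, ⟨hJ, hy', hy1, ?_, ?_⟩, M2, M3, hM2, hM3, hne3, rfl⟩
  · intro M M' h1 h2 h3
    exact hmax2 (M, M') ⟨h1, h2, h3⟩
  · refine le_trans ?_ (hmax2 (M1, c.st (x • i1)) ⟨hM1, c.coatom _, hne2⟩)
    exact (Set.ncard_pos (Set.toFinite _)).2 ⟨i1, hmem⟩

variable (m : c.Mx y n) {M : Subgroup G} {Δ : Set Ω} (k : Cl c y n M Δ)

include m in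
/-- existence of clusters -/
theorem Mx.exCl (hex : ∃ M M' : Subgroup G,
    IsCoatom M ∧ IsCoatom M' ∧ M ≠ M' ∧ (c.G2 y M M').ncard = n) :
    ∃ (M : Subgroup G) (Δ : Set Ω), Cl c y n M Δ := by
  obtain ⟨M, M', hM, hM', hne, hcard⟩ := hex
  have key : ∀ M M' M3 : Subgroup G, IsCoatom M → IsCoatom M3 → (c.G2 y M M').ncard = n →
      nz (c.pt M (c.G2 y M M')) ≤ M3 → M ≠ M3 → ∃ (M : Subgroup G) (Δ : Set Ω), Cl c y n M Δ := by
    intro M M' M3 hM hM3 hcard hnz hne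
    obtain ⟨Δ, m', e, x, h1, h2, h3, h4, h5, h6, h7, h8, h9, h10, h11⟩ :=
      m.lem2 hM hM3 hcard hnz hne
    refine ⟨M, Δ, hM, h1, h2, m', h5, ?_⟩
    rw [← h6]
    exact h8.trans hnz
  have hsub : c.G2 y M M' ⊆ c.G1 y M := fun _ h => h.1
  have hne0 : (c.G2 y M M').Nonempty := by
    rw [← Set.ncard_pos (Set.toFinite _), hcard]
    exact m.hn1
  obtain ⟨M3, hM3, hnz⟩ := exCo (c.nz_ne hM (c.pt_le M (c.G2 y M M')) (m.exX hsub hne0))
  by_cases h : M = M3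
  · have h' : M' ≠ M3 := fun h2 => hne (h.trans h2.symm)
    have hs := m.G2_symm hM hM'
    refine key M' M M3 hM' hM3 ?_ ?_ h'
    · rw [← hs, hcard]
    · rw [← hs, ← m.pt_eq_set hM hM' (Set.Subset.refl _)]
      exact hnz
  · exact key M M' M3 hM hM3 hcard hnz h

include m k

theorem Cl.L3 {M' : Subgroup G} (hM' : IsCoatom M') (h : c.pt M Δ ≤ M') :
    M' = M ∨ ∃ d ∈ Δ, M' = c.st d := by
  by_contra hcon
  push Not at hcon
  obtain ⟨h1, h2⟩ := hcon
  have hsub : Δ ⊆ c.G2 y M M' := fun d hd => ⟨k.hΔ hd, h2 d hd, (c.pt_le_iff_sing.1 h) d hd⟩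
  have h3 := Set.ncard_le_ncard hsub (Set.toFinite _)
  have h4 := m.hn M M' k.hM hM' (Ne.symm h1)
  have h5 := k.card
  omega

theorem Cl.L4 {d : Ω} (hd : d ∈ Δ) (h : c.pt M Δ ≤ c.st d) :
    c.G2 y M (c.st d) = Δ \ {d} := by
  have hsub : Δ \ {d} ⊆ c.G2 y M (c.st d) := by
    rintro e ⟨he, hed⟩
    refine ⟨k.hΔ he, ?_, (c.pt_le_iff_sing.1 h) e he⟩
    intro h1
    exact hed (c.inj _ _ h1).symm
  symm
  apply Set.eq_of_subset_of_ncard_le hsub _ (Set.toFinite _)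
  have h4 := m.hn M (c.st d) k.hM (c.coatom d) (k.hΔ hd).1
  have h5 := k.card
  have h6 := Set.ncard_sdiff_singleton_add_one hd (Set.toFinite Δ)
  omega

theorem Cl.L5 {d : Ω} (hd : d ∈ c.G1 y M) (h : c.pt M {d} ≤ c.pt M Δ) : d ∈ Δ := by
  obtain ⟨m', hm', hP⟩ := k.ex
  by_cases hdm : d = m'
  · rw [hdm]
    exact hm'
  · have h1 : d ∈ c.G2 y M (c.st m') := by
      refine ⟨hd, ?_, h.trans hP⟩
      intro h2
      exact hdm (c.inj _ _ h2).symm
    rw [k.L4 m hm' hP] at h1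
    exact h1.1

theorem Cl.ne : Δ.Nonempty := by
  obtain ⟨d, hd, _⟩ := k.ex
  exact ⟨d, hd⟩

theorem Cl.L6 : nz (c.pt M Δ) ≤ M := by
  by_contra hcon
  obtain ⟨M3, hM3, hnz⟩ := exCo (c.nz_ne k.hM (c.pt_le M Δ) (m.exX k.hΔ (k.ne m)))
  have hne : M ≠ M3 := by
    rintro rfl
    exact hcon hnz
  obtain ⟨U, Δ', m', _, _, _, _, _, _, h1, h2, _⟩ :=
    m.lemA2 k.hM hM3 k.hΔ hnz hne (by rw [k.card]; omega)
  have := k.card
  omega

theorem Cl.act {s : G} (hs : s ∈ nz (c.pt M Δ)) {d : Ω} (hd : d ∈ Δ) : s • d ∈ Δ := by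
  have hsM := k.L6 m hs
  apply k.L5 m (smul_G1 hsM (k.hΔ hd))
  rw [pt_smul hsM]
  have := cj_mono (g := s) ((c.pt_le_iff_sing.1 (le_refl (c.pt M Δ))) d hd)
  rwa [mem_nz.1 hs] at this

theorem Cl.act_f {s : G} (hs : s ∈ nz (c.pt M Δ)) {d : Ω} (h : c.pt M Δ ≤ c.st d) :
    c.pt M Δ ≤ c.st (s • d) := by
  have := cj_mono (g := s) h
  rwa [mem_nz.1 hs, cj_stab] at this

/-- `s` moves `d` iff its inverse does; elements that fix `d` -/
theorem Cl.fixes {s : G} (hs : s ∈ nz (c.pt M Δ)) {d e : Ω} (hd : s • d = d) (he : e ∈ Δ)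
    (hne : e ≠ d) : s • e ∈ Δ ∧ s • e ≠ d := by
  refine ⟨k.act m hs he, ?_⟩
  intro h
  rw [← hd] at h
  exact hne (smul_left_cancel s h)

theorem Cl.L7 {s : G} (hs : s ∈ nz (c.pt M Δ)) {d : Ω} (hd : s ∈ c.st d) :
    s ∈ nz (c.pt M (Δ \ {d})) := by
  apply mem_nz_pt (k.L6 m hs)
  rintro e ⟨he, hne⟩
  exact k.fixes m hs hd he hne

theorem Cl.L7' {d : Ω} (hd : c.pt M Δ ≤ c.st d) : c.pt M Δ ≤ nz (c.pt M (Δ \ {d})) :=
  fun s hs => k.L7 m (le_nz _ hs) (hd hs)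

theorem Cl.L8 {d : Ω} (hd : c.pt M Δ ≤ c.st d) {M3 : Subgroup G} (hM3 : IsCoatom M3)
    (h : nz (c.pt M (Δ \ {d})) ≤ M3) : M3 = M ∨ ∃ e ∈ Δ, M3 = c.st e ∧ c.pt M Δ ≤ c.st e := by
  have h1 := (k.L7' m hd).trans h
  rcases k.L3 m hM3 h1 with h2 | ⟨e, he, h2⟩
  · exact Or.inl h2
  · right
    refine ⟨e, he, h2, ?_⟩
    rw [← h2]
    exact h1

theorem Cl.L9 {d : Ω} (hdΔ : d ∈ Δ) (hd : c.pt M Δ ≤ c.st d) {M3 : Subgroup G}
    (hM3 : IsCoatom M3) (h : nz (c.pt M (Δ \ {d})) ≤ M3) (hne : M ≠ M3) :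
    ∃ s ∈ nz (c.pt M Δ), s • d ≠ d := by
  have h4 := k.L4 m hdΔ hd
  have hc : (c.G2 y M (c.st d)).ncard = n := by
    rw [h4]
    have h5 := k.card
    have h6 := Set.ncard_sdiff_singleton_add_one hdΔ (Set.toFinite Δ)
    omega
  obtain ⟨Δ', m', e, x, g1, g2, g3, g4, g5, g6, g7, g8, g9, g10, g11⟩ :=
    m.lem2 k.hM hM3 hc (by rw [h4]; exact h) hne
  rw [h4] at g3 g4 g8 g11
  have hm' : m' ∈ Δ ∧ c.pt M Δ ≤ c.st m' := by
    rcases k.L8 m hd hM3 h with h5 | ⟨e, he, h5, h6⟩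
    · exact absurd h5.symm hne
    · have : m' = e := c.inj _ _ (g6.symm.trans h5)
      rw [this]
      exact ⟨he, h6⟩
  have h7 := k.L4 m hm'.1 hm'.2
  rw [← g6, g7] at h7
  have h8 : Δ' = Δ := by
    rw [← Set.insert_sdiff_self_of_mem g5, h7, Set.insert_sdiff_self_of_mem hm'.1]
  have he : e = d := by
    by_contra hed
    apply g4
    refine ⟨?_, hed⟩
    rw [← h8, g3]
    exact Set.mem_insert _ _
  rw [h8] at g10
  refine ⟨x, mem_nz_pt g9 g10, ?_⟩
  rw [he] at g11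
  exact g11.2

theorem Cl.L10 {d e : Ω} (hdΔ : d ∈ Δ) (hd : c.pt M Δ ≤ c.st d) (heΔ : e ∈ Δ)
    (he : c.pt M Δ ≤ c.st e) (hde : d ≠ e) {g : G} (hg : g ∈ nz (c.pt M (Δ \ {d})))
    (hgd : g ∈ c.st d) (hge : g ∈ c.st e) : g ∈ nz (c.pt M Δ) := by
  have h4 := k.L4 m heΔ he
  have h5 : d ∈ c.G2 y M (c.st e) := by
    rw [h4]
    exact ⟨hdΔ, hde⟩
  have h6 := m.pt_eq (c.coatom e) h5
  have h7 : Δ = (Δ \ {d}) ∪ {d} := (Set.sdiff_union_of_subset
    (Set.singleton_subset_iff.2 hdΔ)).symm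
  have h8 : c.pt M Δ = c.pt M (Δ \ {d}) ⊔ c.pt (c.st e) {d} := by
    rw [← h6, ← pt_union, ← h7]
  apply mem_nz_of_le
  rw [h8]
  intro x hx
  rw [mem_cj] at hx
  have h9 : cj g (c.pt (c.st e) {d}) = c.pt (c.st e) {d} := by
    rw [cj_pt_sing, cj_of_mem hge]
    have : g • d = d := hgd
    rw [this]
  have h10 : c.pt M (Δ \ {d}) ⊔ c.pt (c.st e) {d} ≤
      cj g⁻¹ (c.pt M (Δ \ {d}) ⊔ c.pt (c.st e) {d}) := by
    rw [← cj_le_cj (g := g), cj_cj_inv]
    unfold cj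
    rw [Subgroup.map_sup]
    change cj g _ ⊔ cj g _ ≤ _
    rw [mem_nz.1 hg, h9]
  have h11 := h10 hx
  rw [mem_cj] at h11
  simpa [mul_assoc] using h11

omit k

/-- Lemma G -/
theorem Mx.lemG {a b : Ω} (hab : a ≠ b) (hG : c.G2 y (c.st a) (c.st b) = {a, b}ᶜ) : False := by
  -- the graph
  let Gr : SimpleGraph Ω :=
    { Adj := fun x z => x ≠ z ∧ c.G2 y (c.st x) (c.st z) = {x, z}ᶜ
      symm := ⟨by
        rintro x z ⟨h1, h2⟩
        refine ⟨h1.symm, ?_⟩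
        rw [m.G2_symm (c.coatom z) (c.coatom x), h2, Set.pair_comm]⟩
      loopless := ⟨fun x h => h.1 rfl⟩ }
  have hequi : ∀ (g : G) (M M' : Subgroup G) (l : Ω), l ∈ c.G2 y M M' →
      g • l ∈ c.G2 y (cj g M) (cj g M') := by
    rintro g M M' l ⟨⟨h1, h2⟩, h3, h4⟩
    refine ⟨⟨?_, ?_⟩, ?_, ?_⟩
    · intro h
      apply h1
      rw [← cj_inj (g := g), cj_stab]
      exact h
    · rw [← cj_pt_sing, card_cj, h2]
    · intro h
      apply h3
      rw [← cj_inj (g := g), cj_stab]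
      exact h
    · rw [← cj_pt_sing]
      exact cj_mono h4
  have hadj : ∀ (g : G) (x z : Ω), Gr.Adj x z → Gr.Adj (g • x) (g • z) := by
    rintro g x z ⟨h1, h2⟩
    refine ⟨fun h => h1 (smul_left_cancel g h), ?_⟩
    ext l
    rw [Set.mem_compl_iff, Set.mem_insert_iff, Set.mem_singleton_iff, not_or]
    constructor
    · intro hl
      have h3 := hequi g⁻¹ _ _ l hl
      rw [cj_stab, cj_stab, inv_smul_smul, inv_smul_smul, h2, Set.mem_compl_iff,
        Set.mem_insert_iff, Set.mem_singleton_iff, not_or, inv_smul_eq_iff, inv_smul_eq_iff] at h3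
      exact h3
    · intro hl
      have h3 : g⁻¹ • l ∈ c.G2 y (c.st x) (c.st z) := by
        rw [h2, Set.mem_compl_iff, Set.mem_insert_iff, Set.mem_singleton_iff, not_or,
          inv_smul_eq_iff, inv_smul_eq_iff]
        exact hl
      have h4 := hequi g _ _ _ h3
      rw [cj_stab, cj_stab, smul_inv_smul] at h4
      exact h4
  have hreach : ∀ (g : G) (x z : Ω), Gr.Reachable x z → Gr.Reachable (g • x) (g • z) := by
    intro g x z h
    exact h.map (⟨fun x => g • x, fun {x z} h => hadj g x z h⟩ : Gr →g Gr)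
  let K : Subgroup G :=
    { carrier := {g | Gr.Reachable a (g • a)}
      mul_mem' := by
        intro g h hg hh
        change Gr.Reachable a ((g * h) • a)
        rw [mul_smul]
        exact SimpleGraph.Reachable.trans hg (hreach g _ _ hh)
      one_mem' := by
        change Gr.Reachable a ((1 : G) • a)
        rw [one_smul]
      inv_mem' := by
        intro g hg
        change Gr.Reachable a (g⁻¹ • a)
        have := hreach g⁻¹ _ _ hg
        rw [inv_smul_smul] at this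
        exact this.symm }
  have hKst : c.st a < K := by
    rw [SetLike.lt_iff_le_and_exists]
    constructor
    · intro g hg
      have hg' : g • a = a := hg
      change Gr.Reachable a (g • a)
      rw [hg']
    · obtain ⟨g, hg⟩ := c.trans a b
      refine ⟨g, ?_, ?_⟩
      · change Gr.Reachable a (g • a)
        rw [hg]
        exact SimpleGraph.Adj.reachable (show Gr.Adj a b from ⟨hab, hG⟩)
      · intro h
        have h' : g • a = a := h
        exact hab (h'.symm.trans hg)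
  have hKtop := (c.coatom a).2 K hKst
  have hconn : Gr.Connected := by
    rw [SimpleGraph.connected_iff_exists_forall_reachable]
    refine ⟨a, ?_⟩
    intro x
    obtain ⟨g, hg⟩ := c.trans a x
    have : g ∈ K := by
      rw [hKtop]
      exact Subgroup.mem_top g
    rw [← hg]
    exact this
  have : Nontrivial Ω := ⟨a, b, hab⟩
  obtain ⟨v, hv⟩ := hconn.exists_connected_induce_compl_singleton_of_finite_nontrivial
  -- all subgroups `(G_x)_v` are equal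
  have hstep : ∀ x z : ({v}ᶜ : Set Ω), (Gr.induce {v}ᶜ).Adj x z → v ∈ c.G2 y (c.st x) (c.st z) := by
    intro x z h
    have h' : Gr.Adj (x : Ω) (z : Ω) := h
    rw [h'.2, Set.mem_compl_iff, Set.mem_insert_iff, Set.mem_singleton_iff, not_or]
    exact ⟨fun h => x.2 h.symm, fun h => z.2 h.symm⟩
  have heq : ∀ x z : ({v}ᶜ : Set Ω), (Gr.induce {v}ᶜ).Walk x z →
      c.pt (c.st x) {v} = c.pt (c.st z) {v} := by
    intro x z p
    induction p with
    | nil => rfl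
    | cons h p ih =>
      rw [← ih]
      exact m.pt_eq (c.coatom _) (hstep _ _ h)
  by_cases htwo : ∃ x z : ({v}ᶜ : Set Ω), x ≠ z
  · obtain ⟨x, z, hxz⟩ := htwo
    obtain ⟨p⟩ := hv.preconnected x z
    have hG1 : v ∈ c.G1 y (c.st x) := by
      cases p with
      | nil => exact absurd rfl hxz
      | cons h p => exact (hstep _ _ h).1
    obtain ⟨w, hwX, hw⟩ := c.exX (m.ne_bot hG1)
    have hall : ∀ i : Ω, w ∈ c.st i := by
      intro i
      by_cases hi : i = v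
      · rw [hi]
        exact c.pt_le_st _ _ hw
      · obtain ⟨q⟩ := hv.preconnected x ⟨i, hi⟩
        rw [heq _ _ q] at hw
        exact c.pt_le _ _ hw
    have hker : w ∈ (MulAction.toPermHom G Ω).ker := by
      rw [MonoidHom.mem_ker]
      ext i
      exact hall i
    have h1 := c.nrm _ (MonoidHom.normal_ker _) w hwX hker
    apply (c.coatom a).1
    rw [eq_top_iff, ← h1]
    intro g hg
    rw [MonoidHom.mem_ker] at hg
    have h2 := DFunLike.congr_fun hg a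
    exact h2
  · push Not at htwo
    obtain ⟨x0⟩ := hv.nonempty
    have hle : c.st v ≤ c.st x0 := by
      intro g hg
      have hg' : g • v = v := hg
      have h1 : g • (x0 : Ω) ∈ ({v}ᶜ : Set Ω) := by
        intro h
        rw [Set.mem_singleton_iff] at h
        exact x0.2 (smul_left_cancel g (h.trans hg'.symm))
      have h2 := htwo ⟨g • (x0 : Ω), h1⟩ x0
      exact congrArg Subtype.val h2
    have h3 := coatom_eq (c.coatom v) (c.coatom x0) hle
    exact x0.2 (c.inj _ _ h3).symm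

end Cfg

end

end LF
end MP7b0bad
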