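import Pool.Agent.Work.MP_7b0bad_ag.LF.AbsB

set_option autoImplicit false
set_option linter.unusedSectionVars false
set_option linter.unusedVariables false

/-!
# Local fusion: the abstract configuration, third part (there is no configuration)
-/

namespace MP7b0bad
namespace LF

open scoped Pointwise

section

variable {G Ω : Type} [Group G] [Finite G] [MulAction G Ω] [Finite Ω]

namespace Cfg

variable {c : Cfg G Ω} {y n : ℕ}

/-- a set preserved by generating subgroups is everything -/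
theorem all_of_top (c : Cfg G Ω) {A B : Subgroup G} (h : A ⊔ B = ⊤) {Θ : Set Ω}
    (hne : Θ.Nonempty) (hA : ∀ g ∈ A, ∀ d ∈ Θ, g • d ∈ Θ) (hB : ∀ g ∈ B, ∀ d ∈ Θ, g • d ∈ Θ)
    (x : Ω) : x ∈ Θ := by
  let K : Subgroup G :=
    { carrier := {g | ∀ d, d ∈ Θ ↔ g • d ∈ Θ}
      mul_mem' := by
        intro g h hg hh d
        rw [mul_smul, ← hg, ← hh]
      one_mem' := by
        intro d
        rw [one_smul]
      inv_mem' := by
        intro g hg d
        rw [hg (g⁻¹ • d), smul_inv_smul] }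
  have hK : ∀ C : Subgroup G, (∀ g ∈ C, ∀ d ∈ Θ, g • d ∈ Θ) → C ≤ K := by
    intro C hC g hg d
    constructor
    · exact hC g hg d
    · intro h1
      have h2 := hC g⁻¹ (C.inv_mem hg) _ h1
      rwa [inv_smul_smul] at h2
  have hKtop : K = ⊤ := by
    rw [eq_top_iff, ← h]
    exact sup_le (hK A hA) (hK B hB)
  obtain ⟨d, hd⟩ := hne
  obtain ⟨g, hg⟩ := c.trans d x
  have h1 : g ∈ K := by
    rw [hKtop]
    exact Subgroup.mem_top g
  rw [← hg]
  exact (h1 d).1 hd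

variable (m : c.Mx y n) {M : Subgroup G} {Δ : Set Ω}

include m

/-- case (ii-1) -/
theorem Cl.case5 (k : Cl c y n M Δ) {a : Ω} (haΔ : a ∈ Δ) (ha : c.pt M Δ ≤ c.st a)
    (h1 : nz (c.pt M (Δ \ {a})) ≤ c.st a) (h2 : ¬ nz (c.pt M (Δ \ {a})) ≤ M) : False := by
  have hMa : M ≠ c.st a := (k.hΔ haΔ).1
  obtain ⟨s, hs, hsa⟩ := k.L9 m haΔ ha (c.coatom a) h1 hMa
  have htop : nz (c.pt M Δ) ⊔ nz (c.pt M (Δ \ {a})) = ⊤ := by
    by_contra hcon
    obtain ⟨M4, hM4, hle⟩ := exCo hcon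
    have hPS : nz (c.pt M Δ) ≤ M4 := le_sup_left.trans hle
    have hTS : nz (c.pt M (Δ \ {a})) ≤ M4 := le_sup_right.trans hle
    rcases k.L3 m hM4 ((le_nz _).trans hPS) with h3 | ⟨d, hd, h3⟩
    · rw [h3] at hTS
      exact h2 hTS
    · rw [h3] at hPS hTS
      have hsd : s • d = d := hPS hs
      have hda : a ≠ d := by
        rintro rfl
        exact hsa hsd
      apply h2
      intro g hg
      exact k.L6 m (k.L10 m haΔ ha hd ((le_nz _).trans hPS) hda hg (h1 hg) (hTS hg))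
  have h4 := k.L4 m haΔ ha
  set Γ' : Set Ω := {d | d ∈ c.G1 y (c.st a) ∧ c.pt (c.st a) {d} ≤ c.pt M (Δ \ {a})} with hΓ'
  have hact : ∀ g ∈ nz (c.pt M (Δ \ {a})), ∀ d ∈ Γ', g • d ∈ Γ' := by
    rintro g hg d ⟨hd1, hd2⟩
    refine ⟨smul_G1 (h1 hg) hd1, ?_⟩
    rw [pt_smul (h1 hg)]
    have := cj_mono (g := g) hd2
    rwa [mem_nz.1 hg] at this
  have hsub : ∀ d ∈ Δ, d ≠ a → d ∈ Γ' := by
    intro d hd hda
    have h5 : d ∈ c.G2 y M (c.st a) := by
      rw [h4]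
      exact ⟨hd, hda⟩
    refine ⟨(m.G2_symm' (c.coatom a) h5).1, ?_⟩
    rw [← m.pt_eq (c.coatom a) h5]
    exact c.pt_mono le_rfl (Set.singleton_subset_iff.2 ⟨hd, hda⟩)
  have hother : ∀ d ∈ Γ', M ≠ c.st d → d ∈ Δ ∧ d ≠ a := by
    rintro d ⟨hd1, hd2⟩ hMd
    have h5 : d ∈ c.G2 y (c.st a) M := ⟨hd1, hMd, hd2.trans (c.pt_le _ _)⟩
    have h6 := m.G2_symm' k.hM h5
    rw [h4] at h6
    exact h6
  have hga : ∀ g ∈ nz (c.pt M (Δ \ {a})), g • a = a := fun g hg => h1 hg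
  by_cases hm : ∃ m0 ∈ Γ', M = c.st m0
  · obtain ⟨m0, hm0, hMm⟩ := hm
    have hm0Δ : m0 ∉ Δ := fun h => (k.hΔ h).1 hMm
    have ham0 : a ≠ m0 := by
      rintro rfl
      exact hm0Δ haΔ
    have hG : ∀ d ∈ Γ', d ∈ insert m0 Δ := by
      intro d hd
      by_cases hMd : M = c.st d
      · have : d = m0 := c.inj _ _ (hMd.symm.trans hMm)
        rw [this]
        exact Set.mem_insert _ _
      · exact Set.mem_insert_of_mem _ (hother d hd hMd).1
    have hall := c.all_of_top htop (Θ := insert m0 Δ) ⟨m0, Set.mem_insert _ _⟩ (by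
      intro g hg d hd
      rcases Set.mem_insert_iff.1 hd with hd | hd
      · have h5 : g ∈ c.st m0 := by
          rw [← hMm]
          exact k.L6 m hg
        have h6 : g • m0 = m0 := h5
        rw [hd, h6]
        exact Set.mem_insert _ _
      · exact Set.mem_insert_of_mem _ (k.act m hg hd)) (by
      intro g hg d hd
      rcases Set.mem_insert_iff.1 hd with hd | hd
      · rw [hd]
        exact hG _ (hact g hg _ hm0)
      · by_cases hda : d = a
        · rw [hda, hga g hg]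
          exact Set.mem_insert_of_mem _ haΔ
        · exact hG _ (hact g hg _ (hsub d hd hda)))
    refine m.lemG ham0 ?_
    rw [← hMm, m.G2_symm (c.coatom a) k.hM, h4]
    ext d
    rw [Set.mem_compl_iff, Set.mem_insert_iff, Set.mem_singleton_iff, not_or]
    constructor
    · rintro ⟨hd1, hd2⟩
      refine ⟨hd2, ?_⟩
      rintro rfl
      exact hm0Δ hd1
    · rintro ⟨hd1, hd2⟩
      rcases Set.mem_insert_iff.1 (hall d) with hd | hd
      · exact absurd hd hd2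
      · exact ⟨hd, hd1⟩
  · push Not at hm
    have hall := c.all_of_top htop (Θ := Δ) ⟨a, haΔ⟩ (by
      intro g hg d hd
      exact k.act m hg hd) (by
      intro g hg d hd
      by_cases hda : d = a
      · rw [hda, hga g hg]
        exact haΔ
      · have h5 := hact g hg _ (hsub d hd hda)
        exact (hother _ h5 (hm _ h5)).1)
    have hc := k.act_f m hs ha
    refine m.lemG (a := a) (b := s • a) (Ne.symm hsa) ?_
    ext e
    rw [Set.mem_compl_iff, Set.mem_insert_iff, Set.mem_singleton_iff, not_or]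
    constructor
    · rintro ⟨⟨h5, _⟩, h6, _⟩
      constructor
      · rintro rfl
        exact h5 rfl
      · rintro rfl
        exact h6 rfl
    · rintro ⟨h5, h6⟩
      have h7 : e ∈ c.G2 y M (c.st a) := by
        rw [h4]
        exact ⟨hall e, h5⟩
      have h8 : e ∈ c.G2 y M (c.st (s • a)) := by
        rw [k.L4 m (hall _) hc]
        exact ⟨hall e, h6⟩
      refine ⟨(m.G2_symm' (c.coatom a) h7).1, fun h => h6 (c.inj _ _ h).symm, ?_⟩
      rw [← m.pt_eq (c.coatom a) h7, m.pt_eq (c.coatom _) h8]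
      exact c.pt_le _ _

/-- Lemma F -/
theorem Mx.lemF {a b : Ω} (hab : a ≠ b) {Θ : Set Ω} (ha : a ∈ Θ) (hb : b ∈ Θ)
    (kb : Cl c y n (c.st b) (Θ \ {b})) (ka : Cl c y n (c.st a) (Θ \ {a}))
    (hmax : ∀ (M : Subgroup G) (Δ : Set Ω), Cl c y n M Δ →
      Nat.card (nz (c.pt M Δ)) ≤ Nat.card (nz (c.pt (c.st b) (Θ \ {b}))))
    (hG2 : c.G2 y (c.st a) (c.st b) = Θ \ {a, b})
    (hsb : ∃ s ∈ nz (c.pt (c.st b) (Θ \ {b})), s • a ≠ a)
    (hsa : ∃ s ∈ nz (c.pt (c.st a) (Θ \ {a})), s • b ≠ b) : False := by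
  have hact : ∀ x ∈ Θ, Cl c y n (c.st x) (Θ \ {x}) →
      ∀ g ∈ nz (c.pt (c.st x) (Θ \ {x})), ∀ d ∈ Θ, g • d ∈ Θ := by
    intro x hx kx g hg d hd
    by_cases hdx : d = x
    · have h5 : g • x = x := kx.L6 m hg
      rw [hdx, h5]
      exact hx
    · exact (kx.act m hg ⟨hd, hdx⟩).1
  have hactb := hact b hb kb
  have hacta := hact a ha ka
  obtain ⟨s, hs, hsa'⟩ := hsb
  obtain ⟨t, ht, htb⟩ := hsa
  by_cases htop : nz (c.pt (c.st a) (Θ \ {a})) ⊔ nz (c.pt (c.st b) (Θ \ {b})) = ⊤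
  · have hall := c.all_of_top htop ⟨a, ha⟩ hacta hactb
    refine m.lemG hab ?_
    rw [hG2]
    ext d
    constructor
    · exact fun h => h.2
    · exact fun h => ⟨hall d, h⟩
  · obtain ⟨M4, hM4, hle⟩ := exCo htop
    have hA := le_sup_left.trans hle
    have hB := le_sup_right.trans hle
    have hd : ∃ d, d ∈ Θ ∧ d ≠ b ∧ M4 = c.st d := by
      rcases kb.L3 m hM4 ((le_nz _).trans hB) with h3 | ⟨d, hd, h3⟩
      · exfalso
        rw [h3] at hA
        exact htb (hA ht)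
      · exact ⟨d, hd.1, hd.2, h3⟩
    obtain ⟨d, hdΘ, hdb, hM4d⟩ := hd
    rw [hM4d] at hA hB
    have hda : d ≠ a := by
      rintro rfl
      exact hsa' (hB hs)
    have hPa := (le_nz _).trans hA
    have hPb := (le_nz _).trans hB
    have hbd := kb.L4 m (d := d) ⟨hdΘ, hdb⟩ hPb
    have had := ka.L4 m (d := d) ⟨hdΘ, hda⟩ hPa
    have hzb : ∀ z ∈ Θ, z ≠ d → z ≠ b → z ∈ c.G2 y (c.st b) (c.st d) := by
      intro z hz h1 h2
      rw [hbd]
      exact ⟨⟨hz, h2⟩, h1⟩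
    have hza : ∀ z ∈ Θ, z ≠ d → z ≠ a → z ∈ c.G2 y (c.st a) (c.st d) := by
      intro z hz h1 h2
      rw [had]
      exact ⟨⟨hz, h2⟩, h1⟩
    have kd : Cl c y n (c.st d) (Θ \ {d}) := by
      refine ⟨c.coatom d, ?_, ?_, ⟨a, ⟨ha, Ne.symm hda⟩, ?_⟩⟩
      · rintro z ⟨hz, hzd⟩
        by_cases hzb' : z = b
        · refine (m.G2_symm' (c.coatom d) (hza z hz hzd ?_)).1
          rw [hzb']
          exact Ne.symm hab
        · exact (m.G2_symm' (c.coatom d) (hzb z hz hzd hzb')).1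
      · have h5 := kb.card
        have h6 := Set.ncard_sdiff_singleton_add_one hb (Set.toFinite Θ)
        have h7 := Set.ncard_sdiff_singleton_add_one hdΘ (Set.toFinite Θ)
        omega
      · rw [pt_le_iff_sing]
        rintro z ⟨hz, hzd⟩
        by_cases hza' : z = a
        · rw [hza']
          exact c.pt_le_st _ _
        · rw [← m.pt_eq (c.coatom d) (hza z hz hzd hza')]
          exact c.pt_le _ _
    have hnzd : ∀ g : G, g ∈ c.st d → (∀ z ∈ Θ, g • z ∈ Θ) → g ∈ nz (c.pt (c.st d) (Θ \ {d})) := by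
      intro g hg hgΘ
      apply mem_nz_pt hg
      rintro z ⟨hz, hzd⟩
      refine ⟨hgΘ z hz, ?_⟩
      intro h
      have hg' : g • d = d := hg
      rw [Set.mem_singleton_iff] at h
      exact hzd (smul_left_cancel g (h.trans hg'.symm))
    have hSb : nz (c.pt (c.st b) (Θ \ {b})) ≤ nz (c.pt (c.st d) (Θ \ {d})) :=
      fun g hg => hnzd g (hB hg) (hactb g hg)
    have heq := Subgroup.eq_of_le_of_card_ge hSb (hmax _ _ kd)
    have htd : t ∈ nz (c.pt (c.st d) (Θ \ {d})) := hnzd t (hA ht) (hacta t ht)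
    rw [← heq] at htd
    exact htb (kb.L6 m htd)

/-- the last step of the cases A and C -/
theorem Cl.fin (k : Cl c y n M Δ)
    (hmax : ∀ (M' : Subgroup G) (Δ' : Set Ω), Cl c y n M' Δ' →
      Nat.card (nz (c.pt M' Δ')) ≤ Nat.card (nz (c.pt M Δ)))
    {c0 e : Ω} (hc0 : c0 ∈ Δ) (hP : c.pt M Δ ≤ c.st c0) (he : e ∉ Δ) (hMe : M = c.st e)
    (k' : Cl c y n (c.st c0) (insert e (Δ \ {c0})))
    (hs : ∃ s ∈ nz (c.pt M Δ), s • c0 ≠ c0)
    (hx : ∃ x ∈ nz (c.pt (c.st c0) (insert e (Δ \ {c0}))), x • e ≠ e) : False := by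
  have hce : c0 ≠ e := by
    rintro rfl
    exact he hc0
  have h4 := k.L4 m hc0 hP
  have hΘe : insert e Δ \ {e} = Δ := by
    ext d
    constructor
    · rintro ⟨h1, h2⟩
      exact (Set.mem_insert_iff.1 h1).resolve_left h2
    · intro h
      refine ⟨Set.mem_insert_of_mem _ h, ?_⟩
      rintro rfl
      exact he h
  have hΘc : insert e Δ \ {c0} = insert e (Δ \ {c0}) := by
    ext d
    constructor
    · rintro ⟨h1, h2⟩
      rcases Set.mem_insert_iff.1 h1 with h1 | h1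
      · rw [h1]
        exact Set.mem_insert _ _
      · exact Set.mem_insert_of_mem _ ⟨h1, h2⟩
    · intro h
      rcases Set.mem_insert_iff.1 h with h1 | h1
      · rw [h1]
        exact ⟨Set.mem_insert _ _, Ne.symm hce⟩
      · exact ⟨Set.mem_insert_of_mem _ h1.1, h1.2⟩
  subst hMe
  refine m.lemF (a := c0) (b := e) (Θ := insert e Δ) hce (Set.mem_insert_of_mem _ hc0)
    (Set.mem_insert _ _) ?_ ?_ ?_ ?_ ?_ ?_
  · rw [hΘe]
    exact k
  · rw [hΘc]
    exact k'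
  · rw [hΘe]
    exact hmax
  · rw [m.G2_symm (c.coatom _) (c.coatom _), h4]
    ext d
    constructor
    · rintro ⟨h1, h2⟩
      refine ⟨Set.mem_insert_of_mem _ h1, ?_⟩
      rw [Set.mem_insert_iff, Set.mem_singleton_iff, not_or]
      refine ⟨h2, ?_⟩
      rintro rfl
      exact he h1
    · rintro ⟨h1, h2⟩
      rw [Set.mem_insert_iff, Set.mem_singleton_iff, not_or] at h2
      exact ⟨(Set.mem_insert_iff.1 h1).resolve_left h2.2, h2.1⟩
  · rw [hΘe]
    exact hs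
  · rw [hΘc]
    exact hx

/-- case A -/
theorem Cl.case6 (k : Cl c y n M Δ)
    (hmax : ∀ (M' : Subgroup G) (Δ' : Set Ω), Cl c y n M' Δ' →
      Nat.card (nz (c.pt M' Δ')) ≤ Nat.card (nz (c.pt M Δ)))
    {c0 c1 : Ω} (hc0 : c0 ∈ Δ) (hP : c.pt M Δ ≤ c.st c0) (hc1 : c1 ∈ Δ) (hne : c0 ≠ c1)
    (h : nz (c.pt M (Δ \ {c0})) ≤ c.st c1) : False := by
  have h4 := k.L4 m hc0 hP
  have h4' : c.G2 y (c.st c0) M = Δ \ {c0} := by
    rw [m.G2_symm (c.coatom _) k.hM, h4]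
  have hT : c.pt (c.st c0) (c.G2 y (c.st c0) M) = c.pt M (Δ \ {c0}) := by
    rw [m.pt_eq_set (c.coatom _) k.hM (Set.Subset.refl _), h4']
  have hcard : (c.G2 y (c.st c0) M).ncard = n := by
    rw [h4']
    have h5 := k.card
    have h6 := Set.ncard_sdiff_singleton_add_one hc0 (Set.toFinite Δ)
    omega
  obtain ⟨Δ', m', e, x, g1, g2, g3, g4, g5, g6, g7, g8, g9, g10, g11⟩ :=
    m.lem2 (c.coatom c0) (c.coatom c1) hcard (by rw [hT]; exact h)
      (fun h5 => hne (c.inj _ _ h5))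
  rw [h4'] at g3 g4 g11
  rw [hT] at g8
  have hm' : m' = c1 := (c.inj _ _ g6).symm
  rw [hm'] at g5 g7
  have heΔ' : e ∈ Δ' := by
    rw [g3]
    exact Set.mem_insert _ _
  have hec0 : e ≠ c0 := by
    rintro rfl
    exact (g1 heΔ').1 rfl
  have heΔ : e ∉ Δ := fun h5 => g4 ⟨h5, hec0⟩
  have hec1 : e ≠ c1 := by
    rintro rfl
    exact heΔ hc1
  have kc : Cl c y n (c.st c0) Δ' := ⟨c.coatom c0, g1, g2, c1, g5, g8.trans h⟩
  have hfix : ∀ s ∈ nz (c.pt M Δ), s ∈ c.st c0 → s • e = e := by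
    intro s hs hsc
    have h5 : s ∈ c.st c1 := h (k.L7 m hs hsc)
    have h6 : e ∈ c.G2 y (c.st c0) (c.st c1) := by
      rw [g7]
      exact ⟨heΔ', hec1⟩
    have h7 := smul_G2 hsc h5 h6
    rw [g7, g3] at h7
    rcases Set.mem_insert_iff.1 h7.1 with h8 | h8
    · exact h8
    · exfalso
      have h9 := k.act m (Subgroup.inv_mem _ hs) h8.1
      rw [inv_smul_smul] at h9
      exact heΔ h9
  have hPe : c.pt M Δ ≤ c.st e := fun s hs => hfix s (le_nz _ hs) (hP hs)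
  have hMe : M = c.st e := by
    rcases k.L3 m (c.coatom e) hPe with h5 | ⟨d, hd, h5⟩
    · exact h5.symm
    · exfalso
      rw [← c.inj _ _ h5] at hd
      exact heΔ hd
  refine k.fin m hmax hc0 hP heΔ hMe ?_ (k.L9 m hc0 hP (c.coatom c1) h (k.hΔ hc1).1) ?_
  · rw [← g3]
    exact kc
  · rw [← g3]
    refine ⟨x, mem_nz_pt g9 g10, ?_⟩
    intro h5
    rw [h5] at g11
    exact heΔ g11.1

/-- case C -/
theorem Cl.case8 (k : Cl c y n M Δ)
    (hmax : ∀ (M' : Subgroup G) (Δ' : Set Ω), Cl c y n M' Δ' →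
      Nat.card (nz (c.pt M' Δ')) ≤ Nat.card (nz (c.pt M Δ)))
    {c0 : Ω} (hc0 : c0 ∈ Δ) (hP : c.pt M Δ ≤ c.st c0)
    (h : nz (c.pt M (Δ \ {c0})) ≤ M) : False := by
  have h4 := k.L4 m hc0 hP
  have h4' : c.G2 y (c.st c0) M = Δ \ {c0} := by
    rw [m.G2_symm (c.coatom _) k.hM, h4]
  have hT' : c.pt (c.st c0) (Δ \ {c0}) = c.pt M (Δ \ {c0}) := by
    rw [← h4']
    exact m.pt_eq_set (c.coatom _) k.hM (Set.Subset.refl _)
  have hT : c.pt (c.st c0) (c.G2 y (c.st c0) M) = c.pt M (Δ \ {c0}) := by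
    rw [h4', hT']
  have hcard : (c.G2 y (c.st c0) M).ncard = n := by
    rw [h4']
    have h5 := k.card
    have h6 := Set.ncard_sdiff_singleton_add_one hc0 (Set.toFinite Δ)
    omega
  have hne : c.st c0 ≠ M := Ne.symm (k.hΔ hc0).1
  obtain ⟨Δ', m', e, x, g1, g2, g3, g4, g5, g6, g7, g8, g9, g10, g11⟩ :=
    m.lem2 (c.coatom c0) k.hM hcard (by rw [hT]; exact h) hne
  rw [h4'] at g3 g4 g11
  rw [hT] at g8
  have hm' : m' = e := by
    rw [g3] at g5
    rcases Set.mem_insert_iff.1 g5 with h5 | h5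
    · exact h5
    · exact absurd g6 (k.hΔ h5.1).1
  rw [hm'] at g5 g6 g7
  have heΔ : e ∉ Δ := fun h5 => (k.hΔ h5).1 g6
  have k' : Cl c y n (c.st c0) Δ' := by
    refine ⟨c.coatom c0, g1, g2, e, g5, ?_⟩
    rw [← g6]
    exact g8.trans h
  have hΔ' : Δ' \ {e} = Δ \ {c0} := by
    rw [← g7, h4']
  by_cases hN : nz (c.pt M (Δ \ {c0})) ≤ c.st c0
  · refine k.fin m hmax hc0 hP heΔ g6 ?_ (k.L9 m hc0 hP (c.coatom c0) hN (Ne.symm hne)) ?_
    · rw [← g3]
      exact k'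
    · rw [← g3]
      refine ⟨x, mem_nz_pt g9 g10, ?_⟩
      intro h5
      rw [h5] at g11
      exact heΔ g11.1
  · refine k'.case5 m (a := e) g5 ?_ ?_ ?_
    · rw [← g6]
      exact g8.trans h
    · rw [hΔ', hT', ← g6]
      exact h
    · rw [hΔ', hT']
      exact hN

end Cfg

end

/-- there is no configuration -/
theorem prf_HAbs (hJ : HJoin) : HAbs := by
  intro G Ω _ _ _ _ c
  obtain ⟨y, n, m, hex⟩ := c.exMx hJ
  obtain ⟨M0, Δ0, k0⟩ := m.exCl hex
  obtain ⟨⟨M, Δ⟩, k, hmax⟩ := Set.exists_max_image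
    {a : Subgroup G × Set Ω | Cfg.Cl c y n a.1 a.2} (fun a => Nat.card (nz (c.pt a.1 a.2)))
    (Set.toFinite _) ⟨(M0, Δ0), k0⟩
  have k : Cfg.Cl c y n M Δ := k
  have hmax : ∀ (M' : Subgroup G) (Δ' : Set Ω), Cfg.Cl c y n M' Δ' →
      Nat.card (nz (c.pt M' Δ')) ≤ Nat.card (nz (c.pt M Δ)) := fun M' Δ' k' => hmax (M', Δ') k'
  obtain ⟨c0, hc0, hP⟩ := k.ex
  have hsub : Δ \ {c0} ⊆ c.G1 y M := fun _ h => k.hΔ h.1
  have hne0 : (Δ \ {c0}).Nonempty := by
    rw [← Set.ncard_pos (Set.toFinite _)]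
    have h5 := k.card
    have h6 := Set.ncard_sdiff_singleton_add_one hc0 (Set.toFinite Δ)
    have h7 := m.hn1
    omega
  obtain ⟨M3, hM3, hnz⟩ := exCo (c.nz_ne k.hM (c.pt_le M (Δ \ {c0})) (m.exX hsub hne0))
  by_cases hC : nz (c.pt M (Δ \ {c0})) ≤ M
  · exact k.case8 m hmax hc0 hP hC
  · rcases k.L8 m hP hM3 hnz with h1 | ⟨e, he, h1, h2⟩
    · rw [h1] at hnz
      exact hC hnz
    · rw [h1] at hnz
      by_cases hce : c0 = e
      · rw [← hce] at hnz
        exact k.case5 m hc0 hP hnz hC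
      · exact k.case6 m hmax hc0 hP he hce hnz

end LF
end MP7b0bad
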