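import Pool.Agent.Work.MP_7b0bad_ag.LF.Stmts

set_option autoImplicit false

/-!
# Local fusion: conjugates, normalisers, lemmas on chains
-/

namespace MP7b0bad
namespace LF

section

variable {G : Type} [Group G]

/-- conjugate subgroup -/
def cj (g : G) (H : Subgroup G) : Subgroup G := H.map (MulAut.conj g).toMonoidHom

theorem mem_cj {g : G} {H : Subgroup G} {x : G} : x ∈ cj g H ↔ g⁻¹ * x * g ∈ H := by
  simp only [cj, Subgroup.mem_map]
  constructor
  · rintro ⟨h, hh, rfl⟩
    simpa [MulAut.conj_apply, mul_assoc] using hh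
  · intro hx
    exact ⟨_, hx, by simp [MulAut.conj_apply, mul_assoc]⟩

theorem conj_mem_cj {g : G} {H : Subgroup G} {x : G} (hx : x ∈ H) : g * x * g⁻¹ ∈ cj g H := by
  rw [mem_cj]
  simpa [mul_assoc] using hx

theorem cj_one (H : Subgroup G) : cj 1 H = H := by
  ext x
  simp [mem_cj]

theorem cj_mul (g h : G) (H : Subgroup G) : cj (g * h) H = cj g (cj h H) := by
  ext x
  simp [mem_cj, mul_assoc]

theorem cj_inv_cj (g : G) (H : Subgroup G) : cj g⁻¹ (cj g H) = H := by
  rw [← cj_mul, inv_mul_cancel, cj_one]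

theorem cj_cj_inv (g : G) (H : Subgroup G) : cj g (cj g⁻¹ H) = H := by
  rw [← cj_mul, mul_inv_cancel, cj_one]

theorem cj_mono {g : G} {H K : Subgroup G} (h : H ≤ K) : cj g H ≤ cj g K := by
  intro x hx
  rw [mem_cj] at hx ⊢
  exact h hx

theorem cj_le_cj {g : G} {H K : Subgroup G} : cj g H ≤ cj g K ↔ H ≤ K := by
  constructor
  · intro h
    have := cj_mono (g := g⁻¹) h
    rwa [cj_inv_cj, cj_inv_cj] at this
  · exact cj_mono

theorem cj_inj {g : G} {H K : Subgroup G} : cj g H = cj g K ↔ H = K := by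
  constructor
  · intro h
    rw [← cj_inv_cj g H, h, cj_inv_cj]
  · rintro rfl
    rfl

theorem cj_of_mem {g : G} {H : Subgroup G} (hg : g ∈ H) : cj g H = H := by
  ext x
  rw [mem_cj]
  constructor
  · intro h
    have := H.mul_mem (H.mul_mem hg h) (H.inv_mem hg)
    simpa [mul_assoc] using this
  · intro h
    exact H.mul_mem (H.mul_mem (H.inv_mem hg) h) hg

theorem card_cj (g : G) (H : Subgroup G) : Nat.card (cj g H) = Nat.card H := by
  unfold cj
  exact Nat.card_congr
    (Subgroup.equivMapOfInjective H (MulAut.conj g).toMonoidHom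
      (MulAut.conj g).injective).symm.toEquiv

theorem cj_top (g : G) : cj g (⊤ : Subgroup G) = ⊤ := by
  ext x
  simp [mem_cj]

theorem cj_coatom {g : G} {M : Subgroup G} (hM : IsCoatom M) : IsCoatom (cj g M) := by
  constructor
  · intro h
    apply hM.1
    rw [← cj_inv_cj g M, h, cj_top]
  · intro K hK
    have h1 : M < cj g⁻¹ K := by
      rw [lt_iff_le_and_ne] at hK ⊢
      constructor
      · have := cj_mono (g := g⁻¹) hK.1
        rwa [cj_inv_cj] at this
      · intro h
        apply hK.2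
        rw [h, cj_cj_inv]
    have := hM.2 _ h1
    rw [← cj_cj_inv g K, this, cj_top]

theorem cj_stab {Ω : Type} [MulAction G Ω] (g : G) (i : Ω) :
    cj g (MulAction.stabilizer G i) = MulAction.stabilizer G (g • i) := by
  ext x
  rw [mem_cj, MulAction.mem_stabilizer_iff, MulAction.mem_stabilizer_iff, mul_smul, mul_smul,
    inv_smul_eq_iff]

/-- the normaliser -/
def nz (T : Subgroup G) : Subgroup G where
  carrier := {g | cj g T = T}
  mul_mem' := by
    intro a b ha hb
    simp only [Set.mem_ofPred_eq] at ha hb ⊢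
    rw [cj_mul, hb, ha]
  one_mem' := cj_one T
  inv_mem' := by
    intro a ha
    simp only [Set.mem_ofPred_eq] at ha ⊢
    conv_lhs => rw [← ha]
    rw [cj_inv_cj]

theorem mem_nz {T : Subgroup G} {g : G} : g ∈ nz T ↔ cj g T = T := Iff.rfl

theorem le_nz (T : Subgroup G) : T ≤ nz T := fun _ hg => cj_of_mem hg

theorem mem_nz_of_le [Finite G] {T : Subgroup G} {g : G} (h : cj g T ≤ T) : g ∈ nz T := by
  rw [mem_nz]
  exact Subgroup.eq_of_le_of_card_ge h (card_cj g T).ge

theorem normal_of_nz {T : Subgroup G} (h : nz T = ⊤) : T.Normal := by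
  constructor
  intro n hn g
  have hg : g ∈ nz T := by
    rw [h]
    exact Subgroup.mem_top g
  rw [mem_nz] at hg
  rw [← hg]
  exact conj_mem_cj hn

theorem exCo [Finite G] {H : Subgroup G} (h : H ≠ ⊤) : ∃ M : Subgroup G, IsCoatom M ∧ H ≤ M := by
  rcases eq_top_or_exists_le_coatom H with h1 | ⟨M, hM, h1⟩
  · exact absurd h1 h
  · exact ⟨M, hM, h1⟩

theorem coatom_eq {M M' : Subgroup G} (hM : IsCoatom M) (hM' : IsCoatom M') (h : M ≤ M') :
    M = M' := by
  by_contra hne
  exact hM'.1 (hM.2 M' (lt_of_le_of_ne h hne))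

theorem SN.le_of {H L : Subgroup G} (h : SN H L) : H ≤ L := by
  induction h with
  | refl => exact le_rfl
  | step h1 _ _ ih => exact h1.trans ih

/-- the first term of a chain that does not normalise `T` -/
theorem zLem {T M : Subgroup G} (h : SN T M) (hM : ¬ M ≤ nz T) :
    ∃ U : Subgroup G, T ≤ U ∧ U ≤ M ∧ ¬ U ≤ nz T ∧ ∀ y ∈ U, cj y T ≤ nz T := by
  suffices H : ∀ K L : Subgroup G, SN K L → T ≤ K → K ≤ nz T → ¬ L ≤ nz T →
      ∃ U : Subgroup G, T ≤ U ∧ U ≤ L ∧ ¬ U ≤ nz T ∧ ∀ y ∈ U, cj y T ≤ nz T from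
    H T M h le_rfl (le_nz T) hM
  intro K L hKL
  induction hKL with
  | refl => intro _ h2 h3; exact absurd h2 h3
  | @step H K L h1 h2 h3 ih =>
    intro hT hH hL
    by_cases hK : K ≤ nz T
    · exact ih (hT.trans h1) hK hL
    · refine ⟨K, hT.trans h1, h3.le_of, hK, ?_⟩
      intro y hy x hx
      rw [mem_cj] at hx
      have h4 := h2 y hy _ (hT hx)
      apply hH
      simpa [mul_assoc] using h4

/-- the last term of a chain contained in `S` -/
theorem cLem {Y M S : Subgroup G} (h : SN Y M) (hY : Y ≤ S) (hM : ¬ M ≤ S) :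
    ∃ x ∈ M, x ∉ S ∧ Y ≤ cj x S := by
  suffices H : ∀ K L : Subgroup G, SN K L → Y ≤ K → K ≤ S → ¬ L ≤ S →
      ∃ x ∈ L, x ∉ S ∧ Y ≤ cj x S from
    H Y M h le_rfl hY hM
  intro K L hKL
  induction hKL with
  | refl => intro _ h2 h3; exact absurd h2 h3
  | @step H K L h1 h2 h3 ih =>
    intro hT hH hL
    by_cases hK : K ≤ S
    · exact ih (hT.trans h1) hK hL
    · obtain ⟨x, hx, hxS⟩ := SetLike.not_le_iff_exists.1 hK
      refine ⟨x, h3.le_of hx, hxS, ?_⟩
      intro y hy
      rw [mem_cj]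
      have h4 := h2 x⁻¹ (K.inv_mem hx) _ (hT hy)
      apply hH
      simpa [mul_assoc] using h4

end

end LF
end MP7b0bad
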