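import Pool.Agent.Work.MP_7b0bad_ag.Bd.B13

set_option autoImplicit false

/-!
# Local fusion: statements

`LFus`: the subnormal closure of an element `u` of a finite group is generated by conjugates of
`u` that are reached by `v, w = x v x⁻¹` with `x ∈ ⟨v, w⟩`.
-/

namespace MP7b0bad
namespace LF

/-- `H` is subnormal in `L` -/
inductive SN {G : Type} [Group G] : Subgroup G → Subgroup G → Prop
  | refl (H : Subgroup G) : SN H H
  | step {H K L : Subgroup G} : H ≤ K → (∀ g ∈ K, ∀ h ∈ H, g * h * g⁻¹ ∈ H) → SN K L → SN H L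

/-- the join theorem of Wielandt -/
def HJoin : Prop := ∀ (G : Type) [Group G] [Finite G] (A B L : Subgroup G), SN A L → SN B L →
  SN (A ⊔ B) L

/-- the subgroup generated by the elements `v ∈ X ∩ H` with `f v ∈ D` -/
def prt {G Ω : Type} [Group G] (X : Set G) (f : G → Ω) (H : Subgroup G) (D : Set Ω) : Subgroup G :=
  Subgroup.closure {v | v ∈ X ∧ v ∈ H ∧ f v ∈ D}

/-- the abstract configuration -/
structure Cfg (G Ω : Type) [Group G] [MulAction G Ω] where
  X : Set G
  f : G → Ω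
  conjX : ∀ g v : G, v ∈ X → g * v * g⁻¹ ∈ X
  conjf : ∀ g v : G, v ∈ X → f (g * v * g⁻¹) = g • f v
  nrm : ∀ N : Subgroup G, N.Normal → ∀ v ∈ X, v ∈ N → N = ⊤
  trans : ∀ i j : Ω, ∃ g : G, g • i = j
  coatom : ∀ i : Ω, IsCoatom (MulAction.stabilizer G i)
  inj : ∀ i j : Ω, MulAction.stabilizer G i = MulAction.stabilizer G j → i = j
  sn : ∀ M : Subgroup G, IsCoatom M → ∀ i : Ω, SN (prt X f M {i}) M
  ex : ∃ M : Subgroup G, ∃ i : Ω, IsCoatom M ∧ M ≠ MulAction.stabilizer G i ∧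
    prt X f M {i} ≠ ⊥

/-- there is no abstract configuration -/
def HAbs : Prop := ∀ (G Ω : Type) [Group G] [Finite G] [MulAction G Ω] [Finite Ω],
  Cfg G Ω → False

/-- local fusion -/
def HLF : Prop := ∀ (G : Type) [Group G] [Finite G] (u : G) (D : Set G), u ∈ D →
  (∀ v ∈ D, ∀ x ∈ Subgroup.closure {v, x * v * x⁻¹}, x * v * x⁻¹ ∈ D) →
  ∃ N : Subgroup G, SN N ⊤ ∧ u ∈ N ∧ N ≤ Subgroup.closure D

/-- the property `StarM 2` for all simple groups -/
def HStar2 : Prop := ∀ (L : Type) [Group L], IsSimpleGroup L → StarM 2 L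

end LF
end MP7b0bad
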